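import Pool.Agent.Lib_MP_70e04f_add.Many

/-!
# Adding small points to a system that is nonspecial at general complex points
-/

namespace Pool.MP_70e04f_ag.Add

open MvPolynomial Pool.MP_70e04f_ag.Hex

/-- The kernel of a real matrix does not become smaller over the complex numbers. -/
lemma finrank_ker_real_le {I J : Type*} [Fintype I] [Fintype J] (A : Matrix J I ℝ) :
    Module.finrank ℝ (LinearMap.ker A.mulVecLin) ≤
      Module.finrank ℂ (LinearMap.ker (A.map Complex.ofRealHom).mulVecLin) := by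
  classical
  let b := Module.finBasis ℝ (LinearMap.ker A.mulVecLin)
  have hmem : ∀ i, (fun q => (((b i : LinearMap.ker A.mulVecLin) : I → ℝ) q : ℂ)) ∈
      LinearMap.ker (A.map Complex.ofRealHom).mulVecLin := by
    intro i
    have h1 := (b i).2
    rw [LinearMap.mem_ker, Matrix.mulVecLin_apply] at h1 ⊢
    funext j
    have h2 := congrFun h1 j
    rw [Matrix.mulVec, dotProduct] at h2 ⊢
    have h3 := congrArg (fun r : ℝ => (r : ℂ)) h2
    simp only [Pi.zero_apply, Complex.ofReal_zero, Complex.ofReal_sum, Complex.ofReal_mul] at h3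
    simpa using h3
  have hli : LinearIndependent ℂ (fun i => (⟨_, hmem i⟩ :
      LinearMap.ker (A.map Complex.ofRealHom).mulVecLin)) := by
    rw [Fintype.linearIndependent_iff]
    intro c hc
    have h1 : ∀ q, ∑ i, c i * (((b i : LinearMap.ker A.mulVecLin) : I → ℝ) q : ℂ) = 0 := by
      intro q
      have h2 := congrArg (fun v : LinearMap.ker (A.map Complex.ofRealHom).mulVecLin =>
        (v : I → ℂ) q) hc
      simpa [Finset.sum_apply] using h2
    have hb := Fintype.linearIndependent_iff.1 b.linearIndependent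
    have hre : ∀ i, (c i).re = 0 := by
      apply hb
      apply Subtype.ext
      funext q
      have h2 := congrArg Complex.re (h1 q)
      simp only [Complex.re_sum, Complex.re_mul_ofReal, Complex.zero_re] at h2
      simpa [Finset.sum_apply] using h2
    have him : ∀ i, (c i).im = 0 := by
      apply hb
      apply Subtype.ext
      funext q
      have h2 := congrArg Complex.im (h1 q)
      simp only [Complex.im_sum, Complex.im_mul_ofReal, Complex.zero_im] at h2
      simpa [Finset.sum_apply] using h2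
    intro i
    exact Complex.ext (hre i) (him i)
  have h := hli.fintype_card_le_finrank
  rwa [Fintype.card_fin] at h

/-- A nonzero complex polynomial does not vanish at some real point. -/
lemma exists_real_ne {σ : Type*} (g : MvPolynomial σ ℂ) (hg : g ≠ 0) :
    ∃ x : σ → ℝ, eval (fun i => ((x i : ℝ) : ℂ)) g ≠ 0 := by
  by_contra hcon
  push Not at hcon
  apply hg
  apply MvPolynomial.funext_set (fun _ => Set.range (fun r : ℝ => (r : ℂ)))
    (fun _ => Set.infinite_range_of_injective Complex.ofReal_injective)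
  intro x hx
  have h1 : ∀ i, ∃ r : ℝ, (r : ℂ) = x i := fun i => hx i (Set.mem_univ i)
  choose r hr using h1
  have h2 : x = fun i => ((r i : ℝ) : ℂ) := by
    funext i; exact (hr i).symm
  rw [h2, hcon r, map_zero]

/-- Real points off the curve `y = x ^ k` with independent conditions. -/
lemma exists_real_T {n : ℕ} (k d : ℕ) (mult : Fin n → ℕ) (h : GenExp d mult)
    (hpos : ∑ i, mult i * (mult i + 1) ≤ (d + 1) * (d + 2)) :
    ∃ q : Fin n → Fin 2 → ℝ, (∀ i, q i 1 ≠ q i 0 ^ k) ∧
      2 * hT (d + 1) mult q + ∑ i, mult i * (mult i + 1) ≤ (d + 1) * (d + 2) := by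
  classical
  obtain ⟨g, hg0, hg⟩ := h
  have hprod : g * ∏ i : Fin n, ((X (i, 1) : MvPolynomial (Fin n × Fin 2) ℂ) - X (i, 0) ^ k) ≠ 0 := by
    apply mul_ne_zero hg0
    rw [Finset.prod_ne_zero_iff]
    intro i _ h0
    have h1 := congrArg (eval (fun q : Fin n × Fin 2 => if q.2 = 1 then (2 : ℂ) else 1)) h0
    simp at h1
    norm_num at h1
  obtain ⟨x, hx⟩ := exists_real_ne _ hprod
  rw [map_mul, map_prod] at hx
  have hx1 := left_ne_zero_of_mul hx
  have hx2 := right_ne_zero_of_mul hx
  rw [Finset.prod_ne_zero_iff] at hx2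
  refine ⟨fun i j => x (i, j), ?_, ?_⟩
  · intro i hi
    apply hx2 i (Finset.mem_univ i)
    rw [map_sub, map_pow, eval_X, eval_X]
    have h1 : x (i, 1) = x (i, 0) ^ k := hi
    rw [h1]
    push_cast
    ring
  · have h1 := hg (fun i j => ((x (i, j) : ℝ) : ℂ)) hx1
    have h2 := finrank_system ℂ d mult (fun i j => ((x (i, j) : ℝ) : ℂ))
    unfold system at h2
    rw [h2] at h1
    have h3 := finrank_ker_real_le (condMat (d + 1) mult (fun i j => x (i, j)))
    rw [condMat_map] at h3
    have h4 := hT_eq (d + 1) mult (fun i j => x (i, j))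
    rw [condP_tri] at h4
    rw [← h4] at h3
    have h5 : ((hT (d + 1) mult (fun i j => x (i, j)) : ℕ) : ℤ) ≤
        ((Module.finrank ℂ (LinearMap.ker (condMat (d + 1) mult
          (fun i j => ((x (i, j) : ℝ) : ℂ))).mulVecLin) : ℕ) : ℤ) := by
      exact_mod_cast h3
    have h6 : ((∑ i, mult i * (mult i + 1) : ℕ) : ℤ) ≤ (((d + 1) * (d + 2) : ℕ) : ℤ) := by
      exact_mod_cast hpos
    have h7 : (((2 * hT (d + 1) mult (fun i j => x (i, j)) +
        ∑ i, mult i * (mult i + 1) : ℕ)) : ℤ) ≤ (((d + 1) * (d + 2) : ℕ) : ℤ) := by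
      push_cast at h6 ⊢
      rw [max_eq_right (by linarith)] at h1
      linarith
    exact_mod_cast h7

/-- Independence in one degree gives independence in larger degrees. -/
lemma hT_up {τ : Type*} [Fintype τ] {N N' : ℕ} (h : N ≤ N') (m : τ → ℕ) (q : τ → Fin 2 → ℝ)
    (h0 : 2 * hT N m q + ∑ t, m t * (m t + 1) ≤ N * (N + 1)) :
    2 * hT N' m q + ∑ t, m t * (m t + 1) ≤ N' * (N' + 1) := by
  classical
  have h6 : 2 * Fintype.card (Σ t : τ, ↥(tri (m t))) = ∑ t, m t * (m t + 1) := by
    rw [Fintype.card_sigma, Finset.mul_sum]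
    refine Finset.sum_congr rfl fun t _ => ?_
    rw [Fintype.card_coe, two_card_tri]
  have hr : ∀ N, 2 * Module.finrank ℝ (LinearMap.range (condP (tri N) m q).mulVecLin) +
      2 * hT N m q = N * (N + 1) := by
    intro N
    rw [hT_eq]
    have h1 := LinearMap.finrank_range_add_finrank_ker (condP (tri N) m q).mulVecLin
    rw [Module.finrank_fintype_fun_eq_card, Fintype.card_coe] at h1
    have h5 := two_card_tri N
    omega
  have hle : LinearMap.range (condP (tri N) m q).mulVecLin ≤
      LinearMap.range (condP (tri N') m q).mulVecLin := by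
    rintro _ ⟨v, rfl⟩
    refine ⟨fun q' => if h : q'.1 ∈ tri N then v ⟨q'.1, h⟩ else 0, ?_⟩
    funext c
    rw [Matrix.mulVecLin_apply, Matrix.mulVecLin_apply, Matrix.mulVec, Matrix.mulVec, dotProduct,
      dotProduct]
    unfold condP
    have hsub : tri N ⊆ tri N' := by
      intro r hr
      rw [mem_tri] at hr ⊢
      omega
    rw [Finset.sum_coe_sort (tri N') (fun r => ec (q c.1 0) (q c.1 1) r.1 r.2 c.2.1.1 c.2.1.2 *
      (if h : r ∈ tri N then v ⟨r, h⟩ else 0))]
    rw [← Finset.sum_subset hsub (by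
      intro r _ hr
      rw [dif_neg hr, mul_zero])]
    rw [← Finset.sum_coe_sort (tri N)]
    refine Finset.sum_congr rfl fun r _ => ?_
    rw [dif_pos r.2]
  have h1 := Submodule.finrank_mono hle
  have h2 := hr N
  have h3 := hr N'
  omega

/-- The system does not change if points of multiplicity `0` are removed. -/
lemma hT_subtype {n : ℕ} (N : ℕ) (mm : Fin n → ℕ) (T : Finset (Fin n)) (q : Fin n → Fin 2 → ℝ) :
    hT N (fun t : ↥T => mm t.1) (fun t => q t.1) = hT N (fun i => if i ∈ T then mm i else 0) q := by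
  unfold hT Lsys
  have h : vanish (fun t : ↥T => mm t.1) (fun t => q t.1) =
      vanish (fun i => if i ∈ T then mm i else 0) q := by
    ext F
    rw [mem_vanish, mem_vanish]
    constructor
    · intro h i
      split_ifs with hi
      · exact h ⟨i, hi⟩
      · rw [pow_zero, Ideal.one_eq_top]
        exact Submodule.mem_top
    · intro h t
      have h1 := h t.1
      rw [if_pos t.2] at h1
      exact h1
  rw [h]

/-- Adding small points to a system that is nonspecial and nonempty in degree `d - k (M + 1)`. -/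
theorem tri_add {n : ℕ} (k m s M d : ℕ) (mm : Fin n → ℕ) (T : Finset (Fin n))
    (h7 : 7 * m + s < k ^ 2) (hM : 2 * m ≤ M) (hmm : ∀ i, i ∉ T → mm i ≤ M)
    (hs : (Finset.univ.filter (fun i => i ∉ T ∧ m < mm i)).card ≤ s)
    (hd : k * (M + 1) ≤ d)
    (hE : GenExp (d - k * (M + 1)) (fun i => if i ∈ T then mm i else 0))
    (hpos : ∑ i ∈ T, mm i * (mm i + 1) < (d - k * (M + 1) + 1) * (d - k * (M + 1) + 2)) :
    OK (tri (d + 1)) mm := by
  classical
  apply tri_of_sum (d + 1) mm T
  have hkM : (M + 1) * k = k * (M + 1) := Nat.mul_comm _ _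
  have hsum : ∑ i, (fun i => if i ∈ T then mm i else 0) i *
      ((fun i => if i ∈ T then mm i else 0) i + 1) = ∑ i ∈ T, mm i * (mm i + 1) := by
    simp only
    rw [← Finset.sum_subset (Finset.subset_univ T)]
    · refine Finset.sum_congr rfl fun i hi => ?_
      rw [if_pos hi]
    · intro i _ hi
      rw [if_neg hi, zero_mul]
  have hsumT : ∑ t : ↥T, mm t.1 * (mm t.1 + 1) = ∑ i ∈ T, mm i * (mm i + 1) :=
    Finset.sum_coe_sort T (fun i => mm i * (mm i + 1))
  obtain ⟨q, hq1, hq2⟩ := exists_real_T k (d - k * (M + 1)) _ hE (by rw [hsum]; exact hpos.le)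
  have hq3 : 2 * hT (d - k * (M + 1) + 1) (fun t : ↥T => mm t.1) (fun t => q t.1) +
      ∑ t : ↥T, mm t.1 * (mm t.1 + 1) ≤ (d - k * (M + 1) + 1) * (d - k * (M + 1) + 2) := by
    rw [hT_subtype, hsumT, ← hsum]
    exact hq2
  have hj : ∀ j, j ≤ M + 1 → 2 * hT (d + 1 - j * k) (fun t : ↥T => mm t.1) (fun t => q t.1) +
      ∑ t : ↥T, mm t.1 * (mm t.1 + 1) = (d + 1 - j * k) * (d + 1 - j * k + 1) := by
    intro j hj
    have h1 : d - k * (M + 1) + 1 ≤ d + 1 - j * k := by
      have : j * k ≤ (M + 1) * k := Nat.mul_le_mul_right k hj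
      omega
    have h2 := hT_up h1 (fun t : ↥T => mm t.1) (fun t => q t.1) hq3
    have h3 := hT_ge (d + 1 - j * k) (fun t : ↥T => mm t.1) (fun t => q t.1)
    omega
  apply add_small k m s M (d + 1) (fun t : ↥T => mm t.1) (fun t => q t.1) _ h7 hM
  · intro i
    split_ifs with h
    · exact Nat.zero_le _
    · exact hmm i h
  · refine le_trans (Finset.card_le_card ?_) hs
    intro i hi
    rw [Finset.mem_filter] at hi ⊢
    have h2 := hi.2
    split_ifs at h2 with h
    · omega
    · exact ⟨hi.1, h, h2⟩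
  · intro t
    exact hq1 t.1
  · exact hj
  · have h1 := hj (M + 1) le_rfl
    rw [hsumT] at h1
    have e : d + 1 - (M + 1) * k = d - k * (M + 1) + 1 := by omega
    rw [e] at h1 ⊢
    have e2 : d - k * (M + 1) + 1 + 1 = d - k * (M + 1) + 2 := rfl
    rw [e2] at h1
    omega

/-- Adding small points: general complex points. -/
theorem gen_add (n k m s M d D : ℕ) (mm : Fin n → ℕ) (T : Finset (Fin n))
    (h7 : 7 * m + s < k ^ 2) (hM : 2 * m ≤ M) (hmm : ∀ i, i ∉ T → mm i ≤ M)
    (hs : (Finset.univ.filter (fun i => i ∉ T ∧ m < mm i)).card ≤ s)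
    (hd : k * (M + 1) ≤ d)
    (hE : GenExp (d - k * (M + 1)) (fun i => if i ∈ T then mm i else 0))
    (hpos : ∑ i ∈ T, mm i * (mm i + 1) < (d - k * (M + 1) + 1) * (d - k * (M + 1) + 2))
    (hD : D = d ∨ D ≤ d ∧ (d + 1) * (d + 2) ≤ ∑ i, mm i * (mm i + 1)) : GenExp D mm := by
  have h := genExp_of_OK d mm (tri_add k m s M d mm T h7 hM hmm hs hd hE hpos)
  rcases hD with rfl | ⟨h1, h2⟩
  · exact h
  · exact h.le h1 h2

end Pool.MP_70e04f_ag.Add
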