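import Pool.Agent.Lib_MP_70e04f_add.Sys

/-!
# Restriction to the cuspidal cubic (piece CUBA)

PAPER PROOF. `cub F = F (X ^ 2, X ^ 3)`. A monomial `x ^ a y ^ b` with `a + b < N` goes to
`X ^ (2 a + 3 b)`, and `2 a + 3 b ≤ 3 (N - 1)`, `2 a + 3 b ≠ 1`; so the support of `cub F` has at
most `3 (N - 1)` elements (`N ≥ 2`). The homomorphism `cub` maps the ideal of the point
`(t ^ 2, t ^ 3)` into the ideal `(X - t)`, hence its `m`-th power into `((X - t) ^ m)`. So the
image `W` of `Lsys N m (cpt e)` consists of polynomials with support in a set of `3 (N - 1)`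
exponents and divisible by `∏ (X - e t) ^ m t`. Choose `y > 0` different from all `e t` and
`s = 3 (N - 1) - ∑ m t`: an element of `W` divisible moreover by `(X - y) ^ s` is zero by
`descartes` (or `row_zero` in `Lib_MP_70e04f_ag/Cert.lean`). So `W` is embedded in `ℝ ^ s`
by the Taylor coefficients at `y`: `finrank W ≤ s`.
-/

namespace Pool.MP_70e04f_ag.Add

open MvPolynomial Pool.MP_70e04f_ag.Hex

/-- Restriction to the cuspidal cubic. -/
noncomputable def cub : MvPolynomial (Fin 2) ℝ →ₐ[ℝ] Polynomial ℝ :=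
  aeval ![Polynomial.X ^ 2, Polynomial.X ^ 3]

namespace CubA

lemma eval_cub (e : ℝ) (G : MvPolynomial (Fin 2) ℝ) :
    (cub G).eval e = MvPolynomial.eval ![e ^ 2, e ^ 3] G := by
  have h : (Polynomial.evalRingHom e).comp (cub : MvPolynomial (Fin 2) ℝ →+* Polynomial ℝ) =
      MvPolynomial.eval ![e ^ 2, e ^ 3] := by
    apply MvPolynomial.ringHom_ext
    · intro r
      simp [cub]
    · intro i
      fin_cases i <;> simp [cub]
  exact congrArg (fun ψ : MvPolynomial (Fin 2) ℝ →+* ℝ => ψ G) h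

lemma dvd_cub {e : ℝ} {m : ℕ} {F : MvPolynomial (Fin 2) ℝ}
    (h : F ∈ (RingHom.ker (MvPolynomial.eval ![e ^ 2, e ^ 3]) :
      Ideal (MvPolynomial (Fin 2) ℝ)) ^ m) :
    (Polynomial.X - Polynomial.C e) ^ m ∣ cub F := by
  have h1 : Ideal.map (cub : MvPolynomial (Fin 2) ℝ →+* Polynomial ℝ)
      (RingHom.ker (MvPolynomial.eval ![e ^ 2, e ^ 3])) ≤
      Ideal.span {Polynomial.X - Polynomial.C e} := by
    rw [Ideal.map_le_iff_le_comap]
    intro G hG
    rw [Ideal.mem_comap, Ideal.mem_span_singleton, Polynomial.dvd_iff_isRoot, Polynomial.IsRoot.def]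
    rw [RingHom.mem_ker] at hG
    change (cub G).eval e = 0
    rw [eval_cub, hG]
  have h2 := Ideal.mem_map_of_mem (cub : MvPolynomial (Fin 2) ℝ →+* Polynomial ℝ) h
  rw [Ideal.map_pow] at h2
  have h3 := Ideal.pow_right_mono h1 m h2
  rw [Ideal.span_singleton_pow, Ideal.mem_span_singleton] at h3
  exact h3

/-- The exponents of the restrictions. -/
lemma support_cub {N : ℕ} (hN : 2 ≤ N) {F : MvPolynomial (Fin 2) ℝ}
    (h : F ∈ LinearMap.range (toPS (tri N))) : (cub F).support.card ≤ 3 * (N - 1) := by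
  obtain ⟨v, rfl⟩ := h
  have h1 : (cub (toPS (tri N) v)).support ⊆ (Finset.range (3 * (N - 1) + 1)).erase 1 := by
    intro n hn
    rw [Polynomial.mem_support_iff] at hn
    by_contra hcon
    apply hn
    rw [toPS, Fintype.linearCombination_apply, map_sum, Polynomial.finsetSum_coeff]
    apply Finset.sum_eq_zero
    intro q _
    have h2 := mem_tri.1 q.2
    have h3 : cub ((v q) • (X 0 ^ q.1.1 * X 1 ^ q.1.2 : MvPolynomial (Fin 2) ℝ)) =
        (v q) • Polynomial.X ^ (2 * q.1.1 + 3 * q.1.2) := by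
      rw [map_smul, map_mul, map_pow, map_pow, pow_add, pow_mul, pow_mul]
      simp [cub]
    rw [h3, Polynomial.coeff_smul, Polynomial.coeff_X_pow, if_neg, smul_zero]
    rintro rfl
    apply hcon
    rw [Finset.mem_erase, Finset.mem_range]
    omega
  refine (Finset.card_le_card h1).trans ?_
  rw [Finset.card_erase_of_mem (by rw [Finset.mem_range]; omega), Finset.card_range]
  omega

end CubA

open CubA

/-- The dimension of the restricted system. -/
theorem finrank_cub {τ : Type*} [Fintype τ] {e : τ → ℝ} (he : Function.Injective e)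
    (he0 : ∀ t, 0 < e t) {N : ℕ} (hN : 2 ≤ N) {m : τ → ℕ} (hm : ∑ t, m t ≤ 3 * (N - 1)) :
    Module.finrank ℝ ↥((Lsys N m (cpt e)).map cub.toLinearMap) + ∑ t, m t ≤ 3 * (N - 1) := by
  classical
  set s : ℕ := 3 * (N - 1) - ∑ t, m t with hs
  set y : ℝ := ∑ t, e t + 1 with hy
  have hy0 : 0 < y := by
    have : 0 ≤ ∑ t, e t := Finset.sum_nonneg fun t _ => (he0 t).le
    linarith
  have hye : ∀ t, e t ≠ y := by
    intro t
    have : e t ≤ ∑ t, e t := Finset.single_le_sum (fun t _ => (he0 t).le) (Finset.mem_univ t)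
    intro h
    linarith
  set W := (Lsys N m (cpt e)).map cub.toLinearMap with hW
  let T : Polynomial ℝ →ₗ[ℝ] (Fin s → ℝ) :=
    LinearMap.pi fun i => (Polynomial.lcoeff ℝ i).comp (Polynomial.taylor y)
  have hT : ∀ f i, T f i = (Polynomial.taylor y f).coeff i := fun f i => rfl
  have hker : ∀ f ∈ W, T f = 0 → f = 0 := by
    rintro f hf hTf
    obtain ⟨F, hF, rfl⟩ := Submodule.mem_map.1 hf
    obtain ⟨hF1, hF2⟩ := Submodule.mem_inf.1 hF
    rw [mem_vanish] at hF2
    have h1 : (Polynomial.X - Polynomial.C y) ^ s ∣ cub F := by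
      rw [Polynomial.X_sub_C_pow_dvd_iff, Polynomial.X_pow_dvd_iff]
      intro d hd
      have := congrFun hTf ⟨d, hd⟩
      rw [hT] at this
      exact this
    exact row_zero e he0 he y hy0 hye (cub F) Finset.univ m (fun t _ => dvd_cub (hF2 t)) s h1
      ((support_cub hN hF1).trans (by omega))
  have hinj : Function.Injective (T.domRestrict W) := by
    rw [← LinearMap.ker_eq_bot, LinearMap.ker_eq_bot']
    intro f hf
    apply Subtype.ext
    exact hker f.1 f.2 hf
  have h1 := LinearMap.finrank_le_finrank_of_injective hinj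
  rw [Module.finrank_fintype_fun_eq_card, Fintype.card_fin] at h1
  omega

end Pool.MP_70e04f_ag.Add
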