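import Pool.Agent.Lib_MP_70e04f_add.CubA

/-!
# The kernel of the restriction to the cuspidal cubic (piece CUBB)

PAPER PROOF. Let `f = X 1 ^ 2 - X 0 ^ 3`. If `cub F = 0` then `f ∣ F`: modulo `f` every
polynomial is congruent to `A (x) + y B (x)`, and `A (X ^ 2) + X ^ 3 B (X ^ 2) = 0` gives
`A = B = 0` (even and odd exponents). If `F = f G` has degree `< N` and `G ≠ 0` then `G` has degree
`< N - 3` (`totalDegree f = 3`, degrees add). If `f G` vanishes to order `m` at
`p = (e ^ 2, e ^ 3)`, `e ≠ 0`, then `G` vanishes to order `m - 1`: after the translation `shift p`,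
`f` has zero constant term and a nonzero linear part (`2 e ^ 3 Y - 3 e ^ 4 X`); if `G` had a
nonzero coefficient of degree `< m - 1`, take its homogeneous component `G_g` of least degree `g`;
the homogeneous component of degree `g + 1 < m` of `f G` is (linear part) * `G_g ≠ 0`, a
contradiction (`mem_ker_pow_iff` in `Lib_MP_70e04f_ag/Poly.lean` translates the vanishing order).
So the kernel of `cub` on `Lsys N m` is contained in `f * Lsys (N - 3) (m - 1)`.
-/

namespace Pool.MP_70e04f_ag.Add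

open MvPolynomial Pool.MP_70e04f_ag.Hex

namespace CubB

/-- Normal form modulo the cubic. -/
lemma normal_form (F : MvPolynomial (Fin 2) ℝ) : ∃ A B : Polynomial ℝ,
    (X 1 ^ 2 - X 0 ^ 3 : MvPolynomial (Fin 2) ℝ) ∣
      F - (Polynomial.aeval (X 0 : MvPolynomial (Fin 2) ℝ) A +
        X 1 * Polynomial.aeval (X 0 : MvPolynomial (Fin 2) ℝ) B) := by
  induction F using MvPolynomial.induction_on with
  | C a =>
    refine ⟨Polynomial.C a, 0, ?_⟩
    rw [Polynomial.aeval_C, map_zero, mul_zero, add_zero, MvPolynomial.algebraMap_eq, sub_self]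
    exact dvd_zero _
  | add F G hF hG =>
    obtain ⟨A, B, h⟩ := hF
    obtain ⟨A', B', h'⟩ := hG
    refine ⟨A + A', B + B', ?_⟩
    have := dvd_add h h'
    rw [map_add, map_add]
    convert this using 1
    ring
  | mul_X F i hF =>
    obtain ⟨A, B, h⟩ := hF
    fin_cases i
    · refine ⟨A * Polynomial.X, B * Polynomial.X, ?_⟩
      rw [map_mul, map_mul, Polynomial.aeval_X]
      have := h.mul_right (X 0)
      convert this using 1
      simp only [Fin.zero_eta, Fin.isValue]
      ring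
    · refine ⟨B * Polynomial.X ^ 3, A, ?_⟩
      rw [map_mul, map_pow, Polynomial.aeval_X]
      have h1 := h.mul_right (X 1)
      have h2 : (X 1 ^ 2 - X 0 ^ 3 : MvPolynomial (Fin 2) ℝ) ∣
          (X 1 ^ 2 - X 0 ^ 3) * Polynomial.aeval (X 0 : MvPolynomial (Fin 2) ℝ) B :=
        dvd_mul_right _ _
      have := dvd_add h1 h2
      convert this using 1
      simp only [Fin.mk_one, Fin.isValue]
      ring

lemma cub_aeval (A : Polynomial ℝ) :
    cub (Polynomial.aeval (X 0 : MvPolynomial (Fin 2) ℝ) A) = Polynomial.expand ℝ 2 A := by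
  have h : cub.comp (Polynomial.aeval (X 0 : MvPolynomial (Fin 2) ℝ)) =
      Polynomial.expand ℝ 2 := by
    apply Polynomial.algHom_ext
    simp [cub]
  exact congrArg (fun ψ : Polynomial ℝ →ₐ[ℝ] Polynomial ℝ => ψ A) h

lemma cub_f : cub (X 1 ^ 2 - X 0 ^ 3 : MvPolynomial (Fin 2) ℝ) = 0 := by
  simp only [cub, map_sub, map_pow, aeval_X, Matrix.cons_val_zero, Matrix.cons_val_one]
  ring

lemma even_odd {A B : Polynomial ℝ}
    (h : Polynomial.expand ℝ 2 A + Polynomial.X ^ 3 * Polynomial.expand ℝ 2 B = 0) :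
    A = 0 ∧ B = 0 := by
  have hc : ∀ n, (Polynomial.expand ℝ 2 A + Polynomial.X ^ 3 * Polynomial.expand ℝ 2 B).coeff n
      = 0 := by
    intro n
    rw [h, Polynomial.coeff_zero]
  simp only [Polynomial.coeff_add, Polynomial.coeff_X_pow_mul', Polynomial.coeff_expand two_pos]
    at hc
  constructor
  · ext n
    have h1 := hc (2 * n)
    rw [if_pos (dvd_mul_right 2 n), Nat.mul_div_cancel_left n two_pos] at h1
    rw [Polynomial.coeff_zero]
    split_ifs at h1 with h2 h3
    · omega
    · linarith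
    · linarith
  · ext n
    have h1 := hc (2 * n + 3)
    rw [if_neg (by omega), if_pos (by omega), Nat.add_sub_cancel, if_pos (dvd_mul_right 2 n),
      Nat.mul_div_cancel_left n two_pos, zero_add] at h1
    rw [h1, Polynomial.coeff_zero]

/-- Coefficients of a product with a monomial. -/
lemma coeff_mul_mon (a b i j : ℕ) (p : MvPolynomial (Fin 2) ℝ) :
    coeff (mon a b) (X 0 ^ i * X 1 ^ j * p) =
      if i ≤ a ∧ j ≤ b then coeff (mon (a - i) (b - j)) p else 0 := by
  have h : (X 0 ^ i * X 1 ^ j : MvPolynomial (Fin 2) ℝ) = monomial (mon i j) 1 := by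
    rw [mon, monomial_eq, Finsupp.prod_add_index']
    · rw [Finsupp.prod_single_index (by simp), Finsupp.prod_single_index (by simp)]
      simp
    · intro; simp
    · intro _ _ _; rw [pow_add]
  rw [h, coeff_monomial_mul', one_mul]
  have h1 : mon i j ≤ mon a b ↔ i ≤ a ∧ j ≤ b := by
    constructor
    · intro hle
      have h0 := hle 0
      have h1 := hle 1
      rw [mon_zero', mon_zero'] at h0
      rw [mon_one', mon_one'] at h1
      exact ⟨h0, h1⟩
    · rintro ⟨h0, h1⟩ t
      fin_cases t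
      · change mon i j 0 ≤ mon a b 0
        rwa [mon_zero', mon_zero']
      · change mon i j 1 ≤ mon a b 1
        rwa [mon_one', mon_one']
  by_cases h2 : i ≤ a ∧ j ≤ b
  · rw [if_pos (h1.2 h2), if_pos h2]
    congr 1
    ext t
    fin_cases t
    · change (mon a b - mon i j) 0 = mon (a - i) (b - j) 0
      rw [Finsupp.tsub_apply, mon_zero', mon_zero', mon_zero']
    · change (mon a b - mon i j) 1 = mon (a - i) (b - j) 1
      rw [Finsupp.tsub_apply, mon_one', mon_one', mon_one']
  · rw [if_neg (fun h3 => h2 (h1.1 h3)), if_neg h2]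

/-- The cubic after the translation. -/
lemma shift_f (e : ℝ) :
    shift (![e ^ 2, e ^ 3] : Fin 2 → ℝ) (X 1 ^ 2 - X 0 ^ 3 : MvPolynomial (Fin 2) ℝ) =
      X 0 ^ 0 * X 1 ^ 2 + C (2 * e ^ 3) * (X 0 ^ 0 * X 1 ^ 1) - X 0 ^ 3 * X 1 ^ 0 -
        C (3 * e ^ 2) * (X 0 ^ 2 * X 1 ^ 0) - C (3 * e ^ 4) * (X 0 ^ 1 * X 1 ^ 0) := by
  simp only [shift, map_sub, map_pow, aeval_X, Matrix.cons_val_zero, Matrix.cons_val_one, map_mul,
    map_ofNat]
  ring

lemma f_ne : (X 1 ^ 2 - X 0 ^ 3 : MvPolynomial (Fin 2) ℝ) ≠ 0 ∧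
    3 ≤ (X 1 ^ 2 - X 0 ^ 3 : MvPolynomial (Fin 2) ℝ).totalDegree := by
  have h : coeff (mon 3 0) (X 1 ^ 2 - X 0 ^ 3 : MvPolynomial (Fin 2) ℝ) = -1 := by
    have h1 := coeff_mul_mon 3 0 0 2 1
    have h2 := coeff_mul_mon 3 0 3 0 1
    simp only [pow_zero, one_mul, mul_one] at h1 h2
    rw [coeff_sub, h1, h2]
    have h3 : mon 0 0 = 0 := by simp [mon]
    simp [h3]
  constructor
  · intro h0
    rw [h0, coeff_zero] at h
    norm_num at h
  · have h1 : mon 3 0 ∈ (X 1 ^ 2 - X 0 ^ 3 : MvPolynomial (Fin 2) ℝ).support := by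
      rw [mem_support_iff, h]
      norm_num
    have h2 := le_totalDegree h1
    have h3 : ((mon 3 0).sum fun _ n => n) = 3 := by
      have := degree_mon 3 0
      rw [Finsupp.degree_apply] at this
      exact this
    rwa [h3] at h2

end CubB

open CubB

lemma dvd_of_cub {F : MvPolynomial (Fin 2) ℝ} (h : cub F = 0) :
    (X 1 ^ 2 - X 0 ^ 3 : MvPolynomial (Fin 2) ℝ) ∣ F := by
  obtain ⟨A, B, h1⟩ := normal_form F
  have h2 : cub (F - (Polynomial.aeval (X 0 : MvPolynomial (Fin 2) ℝ) A +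
        X 1 * Polynomial.aeval (X 0 : MvPolynomial (Fin 2) ℝ) B)) = 0 := by
    obtain ⟨G, hG⟩ := h1
    rw [hG, map_mul, cub_f, zero_mul]
  rw [map_sub, h, zero_sub, neg_eq_zero, map_add, map_mul, cub_aeval, cub_aeval] at h2
  have h3 : cub (X 1 : MvPolynomial (Fin 2) ℝ) = Polynomial.X ^ 3 := by
    simp [cub]
  rw [h3] at h2
  obtain ⟨rfl, rfl⟩ := even_odd h2
  simpa using h1

lemma order_drop {e : ℝ} (he : e ≠ 0) {m : ℕ} {G : MvPolynomial (Fin 2) ℝ}
    (h : (X 1 ^ 2 - X 0 ^ 3 : MvPolynomial (Fin 2) ℝ) * G ∈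
      (RingHom.ker (MvPolynomial.eval ![e ^ 2, e ^ 3]) : Ideal (MvPolynomial (Fin 2) ℝ)) ^ m) :
    G ∈ (RingHom.ker (MvPolynomial.eval ![e ^ 2, e ^ 3]) :
      Ideal (MvPolynomial (Fin 2) ℝ)) ^ (m - 1) := by
  rw [mem_ker_pow_iff] at h ⊢
  set g := shift (![e ^ 2, e ^ 3] : Fin 2 → ℝ) G with hg
  have key : ∀ n, n < m - 1 → ∀ b a, a + b = n → coeff (mon a b) g = 0 := by
    intro n
    induction n using Nat.strong_induction_on with
    | _ n ih =>
      intro hn b
      induction b with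
      | zero =>
        intro a hab
        have h1 := h (a + 1, 0) (mem_tri.2 (by change a + 1 + 0 < m; omega))
        rw [map_mul, shift_f, ← hg] at h1
        simp only [sub_mul, add_mul, mul_assoc (C _), coeff_sub, coeff_add, coeff_C_mul,
          coeff_mul_mon] at h1
        have e1 : ¬ (0 ≤ a + 1 ∧ 2 ≤ 0) := by omega
        have e2 : ¬ (0 ≤ a + 1 ∧ 1 ≤ 0) := by omega
        have e3 : (1 ≤ a + 1 ∧ 0 ≤ 0) := by omega
        rw [if_neg e1, if_neg e2, if_pos e3] at h1
        have e4 : (if 3 ≤ a + 1 ∧ 0 ≤ 0 then coeff (mon (a + 1 - 3) (0 - 0)) g else 0) = 0 := by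
          split_ifs with h5
          · exact ih (a + 1 - 3 + 0) (by omega) (by omega) _ _ rfl
          · rfl
        have e5 : (if 2 ≤ a + 1 ∧ 0 ≤ 0 then coeff (mon (a + 1 - 2) (0 - 0)) g else 0) = 0 := by
          split_ifs with h5
          · exact ih (a + 1 - 2 + 0) (by omega) (by omega) _ _ rfl
          · rfl
        rw [e4, e5, Nat.add_sub_cancel, Nat.sub_zero] at h1
        have h6 : 3 * e ^ 4 * coeff (mon a 0) g = 0 := by linarith
        rcases mul_eq_zero.1 h6 with h7 | h7
        · exfalso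
          have : (3 : ℝ) * e ^ 4 ≠ 0 := mul_ne_zero (by norm_num) (pow_ne_zero _ he)
          exact this h7
        · exact h7
      | succ b ihb =>
        intro a hab
        have h1 := h (a + 1, b + 1) (mem_tri.2 (by change a + 1 + (b + 1) < m; omega))
        rw [map_mul, shift_f, ← hg] at h1
        simp only [sub_mul, add_mul, mul_assoc (C _), coeff_sub, coeff_add, coeff_C_mul,
          coeff_mul_mon] at h1
        have e2 : (0 ≤ a + 1 ∧ 1 ≤ b + 1) := by omega
        have e3 : (1 ≤ a + 1 ∧ 0 ≤ b + 1) := by omega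
        rw [if_pos e2, if_pos e3] at h1
        have e1 : (if 0 ≤ a + 1 ∧ 2 ≤ b + 1 then coeff (mon (a + 1 - 0) (b + 1 - 2)) g else 0)
            = 0 := by
          split_ifs with h5
          · exact ih (a + 1 - 0 + (b + 1 - 2)) (by omega) (by omega) _ _ rfl
          · rfl
        have e4 : (if 3 ≤ a + 1 ∧ 0 ≤ b + 1 then coeff (mon (a + 1 - 3) (b + 1 - 0)) g else 0)
            = 0 := by
          split_ifs with h5
          · exact ih (a + 1 - 3 + (b + 1 - 0)) (by omega) (by omega) _ _ rfl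
          · rfl
        have e5 : (if 2 ≤ a + 1 ∧ 0 ≤ b + 1 then coeff (mon (a + 1 - 2) (b + 1 - 0)) g else 0)
            = 0 := by
          split_ifs with h5
          · exact ih (a + 1 - 2 + (b + 1 - 0)) (by omega) (by omega) _ _ rfl
          · rfl
        have e6 : coeff (mon (a + 1 - 0) (b + 1 - 1)) g = 0 := by
          apply ihb
          omega
        rw [e1, e4, e5, e6, Nat.add_sub_cancel, Nat.sub_zero] at h1
        have h6 : 3 * e ^ 4 * coeff (mon a (b + 1)) g = 0 := by linarith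
        rcases mul_eq_zero.1 h6 with h7 | h7
        · exfalso
          have : (3 : ℝ) * e ^ 4 ≠ 0 := mul_ne_zero (by norm_num) (pow_ne_zero _ he)
          exact this h7
        · exact h7
  intro q hq
  exact key (q.1 + q.2) (mem_tri.1 hq) q.2 q.1 rfl

/-- The dimension of the kernel of the restriction. -/
theorem finrank_cub_ker {τ : Type*} [Fintype τ] {e : τ → ℝ} (he0 : ∀ t, 0 < e t) {N : ℕ}
    (m : τ → ℕ) :
    Module.finrank ℝ ↥(Lsys N m (cpt e) ⊓ LinearMap.ker cub.toLinearMap) ≤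
      hT (N - 3) (fun t => m t - 1) (cpt e) := by
  let M : MvPolynomial (Fin 2) ℝ →ₗ[ℝ] MvPolynomial (Fin 2) ℝ :=
    LinearMap.mulLeft ℝ (X 1 ^ 2 - X 0 ^ 3 : MvPolynomial (Fin 2) ℝ)
  have h : Lsys N m (cpt e) ⊓ LinearMap.ker cub.toLinearMap ≤
      (Lsys (N - 3) (fun t => m t - 1) (cpt e)).map M := by
    intro F hF
    obtain ⟨hF1, hF2⟩ := Submodule.mem_inf.1 hF
    obtain ⟨hF3, hF4⟩ := Submodule.mem_inf.1 hF1
    obtain ⟨G, hG⟩ := dvd_of_cub (F := F) hF2
    rw [mem_vanish] at hF4
    refine Submodule.mem_map.2 ⟨G, ?_, hG.symm⟩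
    refine Submodule.mem_inf.2 ⟨?_, ?_⟩
    · by_cases hG0 : G = 0
      · rw [hG0]
        exact Submodule.zero_mem _
      · have hFne : F ≠ 0 := by
          rw [hG]
          exact mul_ne_zero f_ne.1 hG0
        have hN : N ≠ 0 := by
          rintro rfl
          apply hFne
          obtain ⟨v, rfl⟩ := hF3
          rw [toPS, Fintype.linearCombination_apply]
          apply Finset.sum_eq_zero
          intro q _
          have := mem_tri.1 q.2
          omega
        obtain ⟨N', rfl⟩ := Nat.exists_eq_succ_of_ne_zero hN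
        have h1 := mem_range_tri.1 hF3
        rw [hG, totalDegree_mul_of_isDomain f_ne.1 hG0] at h1
        have h2 := f_ne.2
        have h3 : N' + 1 - 3 = (N' - 3) + 1 := by omega
        rw [Nat.succ_eq_add_one, h3]
        rw [mem_range_tri]
        omega
    · rw [mem_vanish]
      intro t
      have h1 := hF4 t
      rw [hG] at h1
      exact order_drop (he0 t).ne' h1
  calc Module.finrank ℝ ↥(Lsys N m (cpt e) ⊓ LinearMap.ker cub.toLinearMap)
      ≤ Module.finrank ℝ ↥((Lsys (N - 3) (fun t => m t - 1) (cpt e)).map M) :=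
        Submodule.finrank_mono h
    _ ≤ Module.finrank ℝ ↥(Lsys (N - 3) (fun t => m t - 1) (cpt e)) :=
        Submodule.finrank_map_le _ _
    _ = hT (N - 3) (fun t => m t - 1) (cpt e) := rfl

end Pool.MP_70e04f_ag.Add
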