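import Pool.Agent.Lib_MP_70e04f_add.Sys

/-!
# At most two points (piece TWOP)

The statement holds for any number of points: if `∑ m t ≤ N` then the conditions are independent
on the polynomials of degree `< N`.

PAPER PROOF. Choose polynomials `A t` of degree at most `∑ s ≠ t, m s` with
`A t ∈ (ker (eval (q s))) ^ m s` for `s ≠ t` and `A t` not vanishing at `q t`
(a product of powers of linear forms). The map
`(F, c) ↦ F + ∑ t, A t * G t`, `F ∈ Lsys N m q`, `G t` of degree `< m t`, is injective: modulo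
`(ker (eval (q t))) ^ m t` everything but `A t * G t` vanishes, so
`A t * G t ∈ (ker (eval (q t))) ^ m t`, hence `G t ∈ (ker (eval (q t))) ^ m t` and `G t = 0` by its
degree. All the values are of degree `< N`. So `hT N m q + ∑ card (tri (m t)) ≤ card (tri N)`.
-/

namespace Pool.MP_70e04f_ag.Add

open MvPolynomial Pool.MP_70e04f_ag.Hex

/-- Cancelling a factor which is not in the maximal ideal. -/
lemma mem_pow_of_mul_mem {p : Fin 2 → ℝ} {m : ℕ} {A G : MvPolynomial (Fin 2) ℝ}
    (hA : eval p A ≠ 0)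
    (h : A * G ∈ (RingHom.ker (MvPolynomial.eval p) : Ideal (MvPolynomial (Fin 2) ℝ)) ^ m) :
    G ∈ (RingHom.ker (MvPolynomial.eval p) : Ideal (MvPolynomial (Fin 2) ℝ)) ^ m := by
  have h1 : (1 - A * C (eval p A)⁻¹ : MvPolynomial (Fin 2) ℝ) ∈
      (RingHom.ker (MvPolynomial.eval p) : Ideal (MvPolynomial (Fin 2) ℝ)) := by
    rw [RingHom.mem_ker, map_sub, map_mul, map_one, eval_C, mul_inv_cancel₀ hA, sub_self]
  have h2 := Ideal.pow_mem_pow h1 m
  obtain ⟨B, hB⟩ : A ∣ 1 - (1 - A * C (eval p A)⁻¹) ^ m := by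
    have h3 : (1 - (1 - A * C (eval p A)⁻¹ : MvPolynomial (Fin 2) ℝ)) ∣
        1 ^ m - (1 - A * C (eval p A)⁻¹) ^ m := sub_dvd_pow_sub_pow _ _ _
    rw [one_pow] at h3
    refine dvd_trans ?_ h3
    exact ⟨C (eval p A)⁻¹, by ring⟩
  have h4 : G = B * (A * G) + G * (1 - A * C (eval p A)⁻¹) ^ m := by
    have : B * (A * G) = (A * B) * G := by ring
    rw [this, ← hB]
    ring
  rw [h4]
  exact Ideal.add_mem _ (Ideal.mul_mem_left _ _ h) (Ideal.mul_mem_left _ _ h2)

/-- A polynomial of small degree vanishing to high order is zero. -/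
lemma toPS_eq_zero_of_mem {p : Fin 2 → ℝ} {m : ℕ} (v : ↥(tri m) → ℝ)
    (h : toPS (tri m) v ∈
      (RingHom.ker (MvPolynomial.eval p) : Ideal (MvPolynomial (Fin 2) ℝ)) ^ m) : v = 0 := by
  classical
  rw [mem_ker_pow_iff] at h
  have h1 : shift p (toPS (tri m) v) = 0 := by
    ext s
    rw [coeff_zero]
    by_cases hs : s 0 + s 1 < m
    · have := h (s 0, s 1) (mem_tri.2 hs)
      rwa [mon_eta] at this
    · unfold toPS
      rw [Fintype.linearCombination_apply, map_sum, coeff_sum]
      refine Finset.sum_eq_zero fun r _ => ?_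
      rw [map_smul, coeff_smul, ← mon_eta s, coeff_shift_mon]
      have hr := mem_tri.1 r.2
      have h2 : ec (p 0) (p 1) r.1.1 r.1.2 (s 0) (s 1) = 0 := by
        unfold ec
        by_cases h3 : r.1.1 < s 0
        · have : ((Polynomial.X + Polynomial.C (p 0)) ^ r.1.1 : Polynomial ℝ).coeff (s 0) = 0 := by
            apply Polynomial.coeff_eq_zero_of_natDegree_lt
            rw [Polynomial.natDegree_pow, Polynomial.natDegree_X_add_C]
            omega
          rw [this, zero_mul]
        · have : ((Polynomial.X + Polynomial.C (p 1)) ^ r.1.2 : Polynomial ℝ).coeff (s 1) = 0 := by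
            apply Polynomial.coeff_eq_zero_of_natDegree_lt
            rw [Polynomial.natDegree_pow, Polynomial.natDegree_X_add_C]
            omega
          rw [this, mul_zero]
      rw [h2, smul_zero]
  have h2 : toPS (tri m) v = 0 := by
    have := shift_shift_neg p (toPS (tri m) v)
    rw [← this, h1, map_zero]
  exact toPS_injective (tri m) (h2.trans (map_zero _).symm)

/-- The factor which vanishes at the other points. -/
lemma exists_factor {τ : Type*} {q : τ → Fin 2 → ℝ} (hq : Function.Injective q)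
    (m : τ → ℕ) (t : τ) (S : Finset τ) (hS : t ∉ S) :
    ∃ A : MvPolynomial (Fin 2) ℝ, A.totalDegree ≤ ∑ s ∈ S, m s ∧ eval (q t) A ≠ 0 ∧
      ∀ s ∈ S, A ∈ (RingHom.ker (MvPolynomial.eval (q s)) :
        Ideal (MvPolynomial (Fin 2) ℝ)) ^ m s := by
  classical
  induction S using Finset.induction_on with
  | empty => exact ⟨1, by simp, by simp, by simp⟩
  | insert a S ha ih =>
    obtain ⟨A, hA1, hA2, hA3⟩ := ih (fun h => hS (Finset.mem_insert_of_mem h))
    have hta : q t ≠ q a := fun h => hS (by rw [hq h]; exact Finset.mem_insert_self _ _)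
    obtain ⟨i, hi⟩ : ∃ i, q t i ≠ q a i := by
      by_contra hcon
      push Not at hcon
      exact hta (funext hcon)
    have hL : (X i - C (q a i) : MvPolynomial (Fin 2) ℝ) ∈
        (RingHom.ker (MvPolynomial.eval (q a)) : Ideal (MvPolynomial (Fin 2) ℝ)) := by
      rw [RingHom.mem_ker, map_sub, eval_X, eval_C, sub_self]
    refine ⟨(X i - C (q a i)) ^ m a * A, ?_, ?_, ?_⟩
    · rw [Finset.sum_insert ha]
      refine (totalDegree_mul _ _).trans (add_le_add ?_ hA1)
      refine (totalDegree_pow _ _).trans ?_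
      have : (X i - C (q a i) : MvPolynomial (Fin 2) ℝ).totalDegree ≤ 1 := by
        refine (totalDegree_sub _ _).trans ?_
        rw [totalDegree_X, totalDegree_C]
        simp
      calc m a * _ ≤ m a * 1 := Nat.mul_le_mul_left _ this
        _ = m a := mul_one _
    · rw [map_mul, map_pow, map_sub, eval_X, eval_C]
      exact mul_ne_zero (pow_ne_zero _ (sub_ne_zero.2 hi)) hA2
    · intro s hs
      rcases Finset.mem_insert.1 hs with rfl | hs
      · exact Ideal.mul_mem_right _ _ (Ideal.pow_mem_pow hL _)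
      · exact Ideal.mul_mem_left _ _ (hA3 s hs)

/-- The product with a polynomial of small degree. -/
lemma mul_toPS_mem {N n a : ℕ} {A G : MvPolynomial (Fin 2) ℝ} (hA : A.totalDegree ≤ a)
    (hG : G ∈ LinearMap.range (toPS (tri n))) (h : n + a ≤ N) :
    A * G ∈ LinearMap.range (toPS (tri N)) := by
  have h0 : ∀ (M : ℕ) (F : MvPolynomial (Fin 2) ℝ), F ∈ LinearMap.range (toPS (tri M)) ↔
      F ∈ Lsys M (fun _ : Empty => 0) (fun _ => 0) := by
    intro M F
    unfold Lsys
    rw [Submodule.mem_inf, mem_vanish]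
    exact ⟨fun h => ⟨h, fun t => t.elim⟩, fun h => h.1⟩
  rw [h0] at hG ⊢
  exact Lsys_mono h _ _ (mul_mem_Lsys hA hG)

/-- Points of small total multiplicity. -/
theorem hT_general {τ : Type*} [Fintype τ] {q : τ → Fin 2 → ℝ} (hq : Function.Injective q) (N : ℕ)
    (m : τ → ℕ) (hm : ∑ t, m t ≤ N) : 2 * hT N m q + ∑ t, m t * (m t + 1) ≤ N * (N + 1) := by
  classical
  choose A hA1 hA2 hA3 using fun t => exists_factor hq m t (Finset.univ.erase t)
    (Finset.notMem_erase _ _)
  let E : ((Σ t, ↥(tri (m t))) → ℝ) →ₗ[ℝ] MvPolynomial (Fin 2) ℝ :=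
    ∑ t, (LinearMap.mulLeft ℝ (A t)) ∘ₗ (toPS (tri (m t))) ∘ₗ
      (LinearMap.funLeft ℝ ℝ (fun r : ↥(tri (m t)) => (⟨t, r⟩ : Σ t, ↥(tri (m t)))))
  have hE : ∀ c, E c = ∑ t, A t * toPS (tri (m t)) (fun r => c ⟨t, r⟩) := by
    intro c
    simp only [E, LinearMap.sum_apply, LinearMap.comp_apply, LinearMap.mulLeft_apply]
    rfl
  let Φ : (↥(Lsys N m q) × ((Σ t, ↥(tri (m t))) → ℝ)) →ₗ[ℝ] MvPolynomial (Fin 2) ℝ :=
    LinearMap.coprod (Submodule.subtype (Lsys N m q)) E
  have hΦ : ∀ x, Φ x = (x.1 : MvPolynomial (Fin 2) ℝ) +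
      ∑ t, A t * toPS (tri (m t)) (fun r => x.2 ⟨t, r⟩) := by
    intro x
    rw [← hE]
    rfl
  have hdeg : ∀ t, m t + ∑ s ∈ Finset.univ.erase t, m s ≤ N := by
    intro t
    rw [Finset.add_sum_erase _ _ (Finset.mem_univ t)]
    exact hm
  have hrange : ∀ x, Φ x ∈ LinearMap.range (toPS (tri N)) := by
    intro x
    rw [hΦ]
    refine Submodule.add_mem _ x.1.2.1 (Submodule.sum_mem _ fun t _ => ?_)
    exact mul_toPS_mem (hA1 t) ⟨_, rfl⟩ (hdeg t)
  have hinj : Function.Injective Φ := by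
    rw [← LinearMap.ker_eq_bot, LinearMap.ker_eq_bot']
    intro x hx
    rw [hΦ] at hx
    have h1 : ∀ t, (fun r : ↥(tri (m t)) => x.2 ⟨t, r⟩) = 0 := by
      intro t
      refine toPS_eq_zero_of_mem (p := q t) _ (mem_pow_of_mul_mem (hA2 t) ?_)
      have h2 : A t * toPS (tri (m t)) (fun r => x.2 ⟨t, r⟩) =
          -((x.1 : MvPolynomial (Fin 2) ℝ) + ∑ s ∈ Finset.univ.erase t,
            A s * toPS (tri (m s)) (fun r => x.2 ⟨s, r⟩)) := by
        rw [← Finset.add_sum_erase _ _ (Finset.mem_univ t)] at hx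
        linear_combination hx
      rw [h2]
      refine Submodule.neg_mem _ (Submodule.add_mem _ ?_ (Submodule.sum_mem _ fun s hs => ?_))
      · exact mem_vanish.1 x.1.2.2 t
      · refine Ideal.mul_mem_right _ _ (hA3 s t ?_)
        rw [Finset.mem_erase]
        exact ⟨fun h => (Finset.mem_erase.1 hs).1 h.symm, Finset.mem_univ _⟩
    have h3 : x.2 = 0 := by
      funext r
      exact congrFun (h1 r.1) r.2
    have h4 : x.1 = 0 := by
      rw [h3] at hx
      have h5 : ∑ t, A t * toPS (tri (m t)) (fun r => (0 : (Σ t, ↥(tri (m t))) → ℝ) ⟨t, r⟩) =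
          0 := by
        refine Finset.sum_eq_zero fun t _ => ?_
        have : (fun r : ↥(tri (m t)) => (0 : (Σ t, ↥(tri (m t))) → ℝ) ⟨t, r⟩) = 0 := rfl
        rw [this, map_zero, mul_zero]
      rw [h5, add_zero] at hx
      exact Subtype.ext hx
    exact Prod.ext h4 h3
  have h1 : Module.finrank ℝ (↥(Lsys N m q) × ((Σ t, ↥(tri (m t))) → ℝ)) ≤
      Module.finrank ℝ ↥(LinearMap.range (toPS (tri N))) :=
    LinearMap.finrank_le_finrank_of_injective
      (f := Φ.codRestrict (LinearMap.range (toPS (tri N))) hrange)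
      (fun x y h => hinj (congrArg Subtype.val h))
  have h2 : Module.finrank ℝ ↥(LinearMap.range (toPS (tri N))) ≤ (tri N).card := by
    refine (LinearMap.finrank_range_le _).trans ?_
    rw [Module.finrank_fintype_fun_eq_card, Fintype.card_coe]
  rw [Module.finrank_prod, Module.finrank_fintype_fun_eq_card, Fintype.card_sigma] at h1
  have h3 := two_card_tri N
  have h4 : ∑ t, m t * (m t + 1) = 2 * ∑ t, Fintype.card ↥(tri (m t)) := by
    rw [Finset.mul_sum]
    refine Finset.sum_congr rfl fun t _ => ?_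
    rw [Fintype.card_coe, two_card_tri]
  rw [h4, ← h3]
  have h5 : hT N m q = Module.finrank ℝ ↥(Lsys N m q) := rfl
  omega

/-- At most two points with nonzero multiplicity. -/
theorem hT_two {τ : Type*} [Fintype τ] {q : τ → Fin 2 → ℝ} (hq : Function.Injective q) (N : ℕ)
    (m : τ → ℕ) (U : Finset τ) (hU : U.card ≤ 2) (h0 : ∀ t, t ∉ U → m t = 0)
    (hm : ∑ t ∈ U, m t ≤ N) : 2 * hT N m q + ∑ t, m t * (m t + 1) ≤ N * (N + 1) := by
  refine hT_general hq N m ?_
  rw [← Finset.sum_subset (Finset.subset_univ U) (fun t _ ht => h0 t ht)]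
  exact hm

end Pool.MP_70e04f_ag.Add
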