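import Pool.Agent.Lib_MP_70e04f_add.CubB
import Pool.Agent.Lib_MP_70e04f_add.TwoP

/-!
# Points on the cuspidal cubic: exact dimensions for systems in standard position
-/

namespace Pool.MP_70e04f_ag.Add

open MvPolynomial Pool.MP_70e04f_ag.Hex

/-- Every three multiplicities have sum `< N`, and the total is at most `3 (N - 1)`. -/
def Std {τ : Type*} [Fintype τ] (N : ℕ) (m : τ → ℕ) : Prop :=
  (∀ U : Finset τ, U.card ≤ 3 → ∑ t ∈ U, m t + 1 ≤ N) ∧ ∑ t, m t + 3 ≤ 3 * N

lemma Std.pos {τ : Type*} [Fintype τ] {N : ℕ} {m : τ → ℕ} (h : Std N m) : 1 ≤ N := by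
  have := h.1 ∅ (by simp)
  simpa using this

lemma Std.mono {τ : Type*} [Fintype τ] {N N' : ℕ} {m : τ → ℕ} (h : Std N m) (hN : N ≤ N') :
    Std N' m :=
  ⟨fun U hU => (h.1 U hU).trans hN, by have := h.2; omega⟩

/-- Nine numbers. -/
lemma sum_nine {τ : Type*} [DecidableEq τ] (Z : Finset τ) (hZ : Z.card ≤ 9) (f : τ → ℕ) (D : ℕ)
    (h : ∀ U : Finset τ, U.card ≤ 3 → ∑ t ∈ U, f t ≤ D) : ∑ t ∈ Z, f t ≤ 3 * D := by
  have key : ∀ Z : Finset τ, ∃ Z1 ⊆ Z, Z1.card ≤ 3 ∧ (Z \ Z1).card ≤ Z.card - 3 := by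
    intro Z
    rcases Nat.lt_or_ge Z.card 3 with h | h
    · exact ⟨Z, subset_rfl, by omega, by simp⟩
    · obtain ⟨Z1, h1, h2⟩ := Finset.exists_subset_card_eq h
      exact ⟨Z1, h1, by omega, by rw [Finset.card_sdiff_of_subset h1]; omega⟩
  obtain ⟨Z1, a1, b1, c1⟩ := key Z
  obtain ⟨Z2, a2, b2, c2⟩ := key (Z \ Z1)
  have e1 := Finset.sum_sdiff a1 (f := f)
  have e2 := Finset.sum_sdiff a2 (f := f)
  have h1 := h Z1 b1
  have h2 := h Z2 b2
  have h3 := h ((Z \ Z1) \ Z2) (by omega)
  omega

section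
variable {τ : Type*} [Fintype τ] {N : ℕ} {m : τ → ℕ}

/-- The system after subtracting the cubic. -/
lemma Std.sub (h : Std N m) (h3 : 3 ≤ (Finset.univ.filter (fun t => m t ≠ 0)).card) :
    4 ≤ N ∧ Std (N - 3) (fun t => m t - 1) := by
  classical
  set Z := Finset.univ.filter (fun t => m t ≠ 0) with hZ
  have hZm : ∀ t ∈ Z, 1 ≤ m t := by
    intro t ht
    rw [hZ, Finset.mem_filter] at ht
    omega
  have hsum1 : ∀ U ⊆ Z, ∑ t ∈ U, (m t - 1) + U.card = ∑ t ∈ U, m t := by
    intro U hU
    rw [Finset.card_eq_sum_ones, ← Finset.sum_add_distrib]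
    refine Finset.sum_congr rfl fun t ht => ?_
    have := hZm t (hU ht)
    omega
  have hN : 4 ≤ N := by
    obtain ⟨U, hU, hc⟩ := Finset.exists_subset_card_eq h3
    have h1 := h.1 U (by omega)
    have h2 := hsum1 U hU
    omega
  have hout : ∀ U : Finset τ, ∑ t ∈ U, (m t - 1) = ∑ t ∈ U ∩ Z, (m t - 1) := by
    intro U
    symm
    apply Finset.sum_subset Finset.inter_subset_left
    intro t ht ht2
    have : m t = 0 := by
      by_contra hcon
      apply ht2
      rw [Finset.mem_inter, hZ, Finset.mem_filter]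
      exact ⟨ht, Finset.mem_univ t, hcon⟩
    omega
  have hA : ∀ U : Finset τ, U.card ≤ 3 → ∑ t ∈ U, (m t - 1) + 1 ≤ N - 3 := by
    intro U hU
    rw [hout]
    have hc : (U ∩ Z).card ≤ 3 := (Finset.card_le_card Finset.inter_subset_left).trans hU
    obtain ⟨W, hW1, hW2, hW3⟩ := Finset.exists_subsuperset_card_eq
      (Finset.inter_subset_right (s₁ := U) (s₂ := Z)) hc h3
    have h1 := h.1 W (by omega)
    have h2 := hsum1 W hW2
    have h4 : ∑ t ∈ U ∩ Z, (m t - 1) ≤ ∑ t ∈ W, (m t - 1) := Finset.sum_le_sum_of_subset hW1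
    omega
  refine ⟨hN, hA, ?_⟩
  have h2 : ∑ t, (m t - 1) = ∑ t ∈ Z, (m t - 1) := by
    rw [hout Finset.univ, Finset.univ_inter]
  rw [h2]
  rcases Nat.lt_or_ge Z.card 9 with h9 | h9
  · have := sum_nine Z (by omega) (fun t => m t - 1) (N - 4) (fun U hU => by
      have := hA U hU
      omega)
    omega
  · have h4 := hsum1 Z subset_rfl
    have h5 := h.2
    have h6 : ∑ t, m t = ∑ t ∈ Z, m t := by
      symm
      apply Finset.sum_subset (Finset.subset_univ _)
      intro t _ ht
      by_contra hcon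
      apply ht
      rw [hZ, Finset.mem_filter]
      exact ⟨Finset.mem_univ t, hcon⟩
    omega

lemma sum_sub_one (m : τ → ℕ) : ∑ t, m t * (m t + 1) =
    ∑ t, (m t - 1) * (m t - 1 + 1) + 2 * ∑ t, m t := by
  rw [Finset.mul_sum, ← Finset.sum_add_distrib]
  refine Finset.sum_congr rfl fun t _ => ?_
  rcases Nat.eq_zero_or_pos (m t) with h | h
  · rw [h]; norm_num
  · obtain ⟨x, hx⟩ : ∃ x, m t = x + 1 := ⟨m t - 1, by omega⟩
    rw [hx, Nat.add_sub_cancel]
    ring

/-- The expected dimension is positive. -/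
lemma Std.chi_pos (h : Std N m) : ∑ t, m t * (m t + 1) + 2 ≤ N * (N + 1) := by
  classical
  induction N using Nat.strong_induction_on generalizing m with
  | _ N ih =>
    rcases Nat.lt_or_ge (Finset.univ.filter (fun t => m t ≠ 0)).card 3 with h3 | h3
    · set Z := Finset.univ.filter (fun t => m t ≠ 0) with hZ
      have h1 := h.1 Z (by omega)
      have h2 : ∑ t, m t * (m t + 1) = ∑ t ∈ Z, m t * (m t + 1) := by
        symm
        apply Finset.sum_subset (Finset.subset_univ _)
        intro t _ ht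
        have : m t = 0 := by
          by_contra hcon
          apply ht
          rw [hZ, Finset.mem_filter]
          exact ⟨Finset.mem_univ t, hcon⟩
        rw [this, Nat.zero_mul]
      have h4 : ∑ t ∈ Z, m t * (m t + 1) ≤ (∑ t ∈ Z, m t) * (∑ t ∈ Z, m t + 1) := by
        rw [Finset.sum_mul]
        apply Finset.sum_le_sum
        intro t ht
        apply Nat.mul_le_mul_left
        have := Finset.single_le_sum (f := m) (fun _ _ => Nat.zero_le _) ht
        omega
      have h5 := h.pos
      rw [h2]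
      obtain ⟨x, hx⟩ : ∃ x, N = x + 1 := ⟨N - 1, by omega⟩
      subst hx
      have h6 : (∑ t ∈ Z, m t) * (∑ t ∈ Z, m t + 1) ≤ x * (x + 1) :=
        Nat.mul_le_mul (by omega) (by omega)
      nlinarith
    · obtain ⟨hN, hs⟩ := h.sub h3
      have h1 := ih (N - 3) (by omega) hs
      have h2 := h.2
      rw [sum_sub_one m]
      obtain ⟨x, hx⟩ : ∃ x, N = x + 4 := ⟨N - 4, by omega⟩
      subst hx
      rw [show x + 4 - 3 = x + 1 by omega] at h1
      nlinarith

/-- The dimension is at most the expected one. -/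
theorem Std.hT_le {e : τ → ℝ} (he : Function.Injective e) (he0 : ∀ t, 0 < e t) (h : Std N m) :
    2 * hT N m (cpt e) + ∑ t, m t * (m t + 1) ≤ N * (N + 1) := by
  classical
  have hq : Function.Injective (cpt e) := by
    intro t t' htt
    apply he
    have h1 : e t ^ 2 = e t' ^ 2 := congrFun htt 0
    exact (sq_eq_sq₀ (he0 t).le (he0 t').le).1 h1
  induction N using Nat.strong_induction_on generalizing m with
  | _ N ih =>
    rcases Nat.lt_or_ge (Finset.univ.filter (fun t => m t ≠ 0)).card 3 with h3 | h3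
    · apply hT_two hq N m _ (Nat.le_of_lt_succ h3)
      · intro t ht
        by_contra hcon
        apply ht
        rw [Finset.mem_filter]
        exact ⟨Finset.mem_univ t, hcon⟩
      · have := h.1 _ (show (Finset.univ.filter (fun t => m t ≠ 0)).card ≤ 3 by omega)
        omega
    · obtain ⟨hN, hs⟩ := h.sub h3
      have h1 := ih (N - 3) (by omega) hs
      have h2 := h.2
      have h4 := finrank_cub he he0 (N := N) (by omega) (m := m) (by omega)
      have h5 := finrank_cub_ker he0 (N := N) m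
      have h6 : hT N m (cpt e) ≤ Module.finrank ℝ ↥((Lsys N m (cpt e)).map cub.toLinearMap) +
          Module.finrank ℝ ↥(Lsys N m (cpt e) ⊓ LinearMap.ker cub.toLinearMap) := by
        have h7 := LinearMap.finrank_range_add_finrank_ker
          (cub.toLinearMap.domRestrict (Lsys N m (cpt e)))
        rw [LinearMap.range_domRestrict] at h7
        have h8 : Module.finrank ℝ
            ↥(LinearMap.ker (cub.toLinearMap.domRestrict (Lsys N m (cpt e)))) ≤
            Module.finrank ℝ ↥(Lsys N m (cpt e) ⊓ LinearMap.ker cub.toLinearMap) := by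
          have : Module.Finite ℝ ↥(Lsys N m (cpt e) ⊓ LinearMap.ker cub.toLinearMap) :=
            Submodule.finiteDimensional_inf_left _ _
          apply LinearMap.finrank_le_finrank_of_injective
            (f := (((Lsys N m (cpt e)).subtype).domRestrict
              (LinearMap.ker (cub.toLinearMap.domRestrict (Lsys N m (cpt e))))).codRestrict
              (Lsys N m (cpt e) ⊓ LinearMap.ker cub.toLinearMap) (fun x => ⟨x.1.2, x.2⟩))
          intro x y hxy
          have := congrArg Subtype.val hxy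
          exact Subtype.ext (Subtype.ext this)
        unfold hT
        omega
      rw [sum_sub_one m]
      obtain ⟨x, hx⟩ : ∃ x, N = x + 4 := ⟨N - 4, by omega⟩
      subst hx
      rw [show x + 4 - 3 = x + 1 by omega] at h1 h5
      have h9 : x + 4 - 1 = x + 3 := rfl
      rw [h9] at h4
      nlinarith

/-- The dimension is at least the expected one. -/
lemma hT_ge (N : ℕ) (m : τ → ℕ) (q : τ → Fin 2 → ℝ) :
    N * (N + 1) ≤ 2 * hT N m q + ∑ t, m t * (m t + 1) := by
  classical
  rw [hT_eq]
  have h0 := LinearMap.finrank_range_add_finrank_ker (condP (tri N) m q).mulVecLin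
  have h2 := Submodule.finrank_le (LinearMap.range (condP (tri N) m q).mulVecLin)
  rw [Module.finrank_fintype_fun_eq_card] at h0 h2
  rw [Fintype.card_coe] at h0
  have h5 := two_card_tri N
  have h6 : 2 * Fintype.card (Σ t : τ, ↥(tri (m t))) = ∑ t, m t * (m t + 1) := by
    rw [Fintype.card_sigma, Finset.mul_sum]
    refine Finset.sum_congr rfl fun t _ => ?_
    rw [Fintype.card_coe, two_card_tri]
  omega

end

end Pool.MP_70e04f_ag.Add
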