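import Pool.Agent.Lib_MP_70e04f_hex.Defs

/-!
# Adding small points to a linear system: definitions

`Lsys N mT q` is the space of real polynomials of degree `< N` with multiplicity `mT t` at `q t`.
-/

namespace Pool.MP_70e04f_ag.Add

open MvPolynomial Pool.MP_70e04f_ag.Hex

/-- The polynomial with exponents in `S` and given coefficients. -/
noncomputable def toPS (S : Finset (ℕ × ℕ)) : (↥S → ℝ) →ₗ[ℝ] MvPolynomial (Fin 2) ℝ :=
  Fintype.linearCombination ℝ
    (fun q : ↥S => (X 0 ^ q.1.1 * X 1 ^ q.1.2 : MvPolynomial (Fin 2) ℝ))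

/-- The polynomials vanishing to order `m t` at `q t`. -/
noncomputable def vanish {τ : Type*} (m : τ → ℕ) (q : τ → Fin 2 → ℝ) :
    Submodule ℝ (MvPolynomial (Fin 2) ℝ) :=
  ⨅ t, Submodule.restrictScalars ℝ
    ((RingHom.ker (MvPolynomial.eval (q t)) : Ideal (MvPolynomial (Fin 2) ℝ)) ^ m t)

lemma mem_vanish {τ : Type*} {m : τ → ℕ} {q : τ → Fin 2 → ℝ} {F : MvPolynomial (Fin 2) ℝ} :
    F ∈ vanish m q ↔ ∀ t, F ∈ (RingHom.ker (MvPolynomial.eval (q t)) :
      Ideal (MvPolynomial (Fin 2) ℝ)) ^ m t := by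
  unfold vanish
  rw [Submodule.mem_iInf]
  rfl

/-- The system of polynomials of degree `< N`. -/
noncomputable def Lsys {τ : Type*} (N : ℕ) (m : τ → ℕ) (q : τ → Fin 2 → ℝ) :
    Submodule ℝ (MvPolynomial (Fin 2) ℝ) :=
  LinearMap.range (toPS (tri N)) ⊓ vanish m q

/-- The dimension of the system. -/
noncomputable def hT {τ : Type*} (N : ℕ) (m : τ → ℕ) (q : τ → Fin 2 → ℝ) : ℕ :=
  Module.finrank ℝ (Lsys N m q)

/-- The equation of the curve `y = x ^ k`. -/
noncomputable def fk (k : ℕ) : MvPolynomial (Fin 2) ℝ := X 1 - X 0 ^ k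

/-- The substitution `y = u + x ^ k`. -/
noncomputable def psi (k : ℕ) : MvPolynomial (Fin 2) ℝ →ₐ[ℝ] MvPolynomial (Fin 2) ℝ :=
  aeval ![X 0, X 1 + X 0 ^ k]

/-- A box containing the exponents of `psi k F` for `F` of degree `< N`. -/
def box (k N : ℕ) : Finset (ℕ × ℕ) := Finset.range ((k + 1) * N) ×ˢ Finset.range N

lemma mem_box {k N : ℕ} {q : ℕ × ℕ} : q ∈ box k N ↔ q.1 < (k + 1) * N ∧ q.2 < N := by
  unfold box
  rw [Finset.mem_product, Finset.mem_range, Finset.mem_range]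

/-- The weight of an exponent: small second coordinate first, then large first coordinate. -/
def wt (N0 : ℕ) (q : ℕ × ℕ) : ℤ := (q.1 : ℤ) - (N0 : ℤ) * (q.2 : ℤ)

/-- The leading indices of a space of vectors, for the weight `ω`. -/
noncomputable def lead {I : Type*} [Fintype I] (ω : I → ℤ) (V : Submodule ℝ (I → ℝ)) :
    Finset I := by
  classical
  exact Finset.univ.filter (fun q => ∃ w ∈ V, w q ≠ 0 ∧ ∀ r, ω q < ω r → w r = 0)

lemma mem_lead {I : Type*} [Fintype I] {ω : I → ℤ} {V : Submodule ℝ (I → ℝ)} {q : I} :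
    q ∈ lead ω V ↔ ∃ w ∈ V, w q ≠ 0 ∧ ∀ r, ω q < ω r → w r = 0 := by
  classical
  unfold lead
  rw [Finset.mem_filter]
  simp

/-- The vectors whose support has second coordinates `≥ j`. -/
def low (S : Finset (ℕ × ℕ)) (j : ℕ) : Submodule ℝ (↥S → ℝ) where
  carrier := {v | ∀ q : ↥S, q.1.2 < j → v q = 0}
  add_mem' := by
    intro v w hv hw q hq
    rw [Pi.add_apply, hv q hq, hw q hq, add_zero]
  zero_mem' := fun _ _ => rfl
  smul_mem' := by
    intro a v hv q hq
    rw [Pi.smul_apply, hv q hq, smul_zero]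

lemma mem_low {S : Finset (ℕ × ℕ)} {j : ℕ} {v : ↥S → ℝ} :
    v ∈ low S j ↔ ∀ q : ↥S, q.1.2 < j → v q = 0 := Iff.rfl

/-- The points of the cuspidal cubic `y ^ 2 = x ^ 3`. -/
def cpt {τ : Type*} (e : τ → ℝ) (t : τ) : Fin 2 → ℝ := ![e t ^ 2, e t ^ 3]

end Pool.MP_70e04f_ag.Add
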