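import Pool.Agent.Lib_MP_70e04f_add.Sys

/-!
# Dividing by the equation of the curve (piece DIV)

PAPER PROOF. `totalDegree (fk k) = k` for `1 ≤ k`, and the total degree is additive on products
of nonzero polynomials (`MvPolynomial.totalDegree_mul_of_isDomain`). So `fk k ^ j * G` of degree
`< N` with `G ≠ 0` gives `G` of degree `< N - j k`. If `fk k` does not vanish at `q t` then
`fk k ^ j` is not in the maximal ideal of `q t`, and the powers of a maximal ideal are primary,
so `fk k ^ j * G ∈ I ^ m` implies `G ∈ I ^ m`.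
-/

namespace Pool.MP_70e04f_ag.Add

open MvPolynomial Pool.MP_70e04f_ag.Hex

lemma coeff_fk (k : ℕ) (s : Fin 2 →₀ ℕ) :
    coeff s (fk k) = (if mon 0 1 = s then 1 else 0) - (if mon k 0 = s then 1 else 0) := by
  classical
  unfold fk
  have e1 : (X 1 : MvPolynomial (Fin 2) ℝ) = monomial (mon 0 1) 1 := by
    rw [← X_pow_mul_X_pow]
    simp
  have e2 : (X 0 ^ k : MvPolynomial (Fin 2) ℝ) = monomial (mon k 0) 1 := by
    rw [← X_pow_mul_X_pow]
    simp
  rw [e1, e2, coeff_sub, coeff_monomial, coeff_monomial]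

lemma totalDegree_fk {k : ℕ} (hk : 1 ≤ k) : (fk k).totalDegree = k := by
  classical
  apply le_antisymm
  · unfold fk
    refine (totalDegree_sub _ _).trans ?_
    rw [totalDegree_X, totalDegree_X_pow]
    exact max_le hk le_rfl
  · have h1 : mon k 0 ∈ (fk k).support := by
      rw [mem_support_iff, coeff_fk, if_pos rfl, if_neg]
      · norm_num
      · intro h
        have := (mon_inj.1 h).1
        omega
    have h2 := le_totalDegree h1
    have h3 : (mon k 0).sum (fun _ => id) = k + 0 := degree_mon _ _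
    have h4 : ((mon k 0).sum fun _ e => e) = k + 0 := h3
    rw [h4] at h2
    exact h2

lemma fk_ne_zero (k : ℕ) : fk k ≠ 0 := by
  intro h
  have h1 := coeff_fk k (mon 0 1)
  rw [h, coeff_zero, if_pos rfl, if_neg] at h1
  · norm_num at h1
  · intro h2
    have := (mon_inj.1 h2).2
    omega

lemma totalDegree_fk_pow {k : ℕ} (hk : 1 ≤ k) (j : ℕ) : (fk k ^ j).totalDegree = j * k := by
  induction j with
  | zero => simp
  | succ j ih =>
    rw [pow_succ, totalDegree_mul_of_isDomain (pow_ne_zero j (fk_ne_zero k)) (fk_ne_zero k), ih,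
      totalDegree_fk hk]
    ring

/-- Multiplying by a power of the equation. -/
lemma fk_mul_mem {τ : Type*} {k N j : ℕ} (hk : 1 ≤ k) {m : τ → ℕ} {q : τ → Fin 2 → ℝ}
    {G : MvPolynomial (Fin 2) ℝ} (hj : j * k ≤ N) (hG : G ∈ Lsys (N - j * k) m q) :
    fk k ^ j * G ∈ Lsys N m q := by
  have h := mul_mem_Lsys (totalDegree_fk_pow hk j).le hG
  rwa [Nat.sub_add_cancel hj] at h

/-- The degree of the quotient. -/
lemma degree_of_fk_mul_mem {τ : Type*} {k N j : ℕ} (hk : 1 ≤ k) {m : τ → ℕ} {q : τ → Fin 2 → ℝ}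
    {G : MvPolynomial (Fin 2) ℝ} (hG : G ≠ 0)
    (h : fk k ^ j * G ∈ Lsys N m q) : j * k + G.totalDegree + 1 ≤ N := by
  have h0 : fk k ^ j * G ≠ 0 := mul_ne_zero (pow_ne_zero j (fk_ne_zero k)) hG
  have h1 := h.1
  rcases N with _ | M
  · exfalso
    rw [SetLike.mem_coe, mem_range_toPS] at h1
    apply h0
    ext s
    by_contra hs
    have := mem_tri.1 (h1 s hs)
    omega
  · rw [SetLike.mem_coe, mem_range_tri,
      totalDegree_mul_of_isDomain (pow_ne_zero j (fk_ne_zero k)) hG, totalDegree_fk_pow hk] at h1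
    omega

/-- Powers of a maximal ideal are primary. -/
lemma mem_pow_of_mul_mem {p : Fin 2 → ℝ} {n : ℕ} {A G : MvPolynomial (Fin 2) ℝ}
    (hA : MvPolynomial.eval p A ≠ 0)
    (h : A * G ∈ (RingHom.ker (MvPolynomial.eval p) : Ideal (MvPolynomial (Fin 2) ℝ)) ^ n) :
    G ∈ (RingHom.ker (MvPolynomial.eval p) : Ideal (MvPolynomial (Fin 2) ℝ)) ^ n := by
  set B : MvPolynomial (Fin 2) ℝ := C (MvPolynomial.eval p A)⁻¹ with hB
  have h1 : 1 - A * B ∈ (RingHom.ker (MvPolynomial.eval p) : Ideal (MvPolynomial (Fin 2) ℝ)) := by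
    rw [RingHom.mem_ker, map_sub, map_one, map_mul, hB, eval_C, mul_inv_cancel₀ hA, sub_self]
  have h2 := Ideal.pow_mem_pow h1 n
  have h3 : 1 - (1 - A * B) ∣ 1 ^ n - (1 - A * B) ^ n := sub_dvd_pow_sub_pow 1 (1 - A * B) n
  obtain ⟨D, hD⟩ := h3
  have e : G = (1 - A * B) ^ n * G + B * D * (A * G) := by
    have h4 : (1 - A * B) ^ n = 1 - (1 - (1 - A * B)) * D := by
      rw [← hD, one_pow]
      ring
    rw [h4]
    ring
  rw [e]
  exact Ideal.add_mem _ (Ideal.mul_mem_right _ _ h2) (Ideal.mul_mem_left _ _ h)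

/-- Dividing by a power of the equation. -/
lemma mem_of_fk_mul_mem {τ : Type*} {k N j : ℕ} (hk : 1 ≤ k) {m : τ → ℕ} {q : τ → Fin 2 → ℝ}
    (hq : ∀ t, q t 1 ≠ q t 0 ^ k) {G : MvPolynomial (Fin 2) ℝ}
    (h : fk k ^ j * G ∈ Lsys N m q) : G ∈ Lsys (N - j * k) m q := by
  by_cases hG : G = 0
  · rw [hG]
    exact Submodule.zero_mem _
  have hd := degree_of_fk_mul_mem hk hG h
  refine ⟨?_, ?_⟩
  · have e : N - j * k = (N - j * k - 1) + 1 := by omega
    rw [e, SetLike.mem_coe, mem_range_tri]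
    omega
  · rw [SetLike.mem_coe, mem_vanish]
    intro t
    refine mem_pow_of_mul_mem (A := fk k ^ j) ?_ (mem_vanish.1 h.2 t)
    rw [map_pow]
    apply pow_ne_zero
    unfold fk
    rw [map_sub, map_pow, eval_X, eval_X]
    exact sub_ne_zero.2 (hq t)

/-- No room for a multiple of the equation. -/
lemma eq_zero_of_fk_mul_mem {τ : Type*} {k N j : ℕ} (hk : 1 ≤ k) {m : τ → ℕ}
    {q : τ → Fin 2 → ℝ} {G : MvPolynomial (Fin 2) ℝ} (hj : N ≤ j * k)
    (h : fk k ^ j * G ∈ Lsys N m q) : G = 0 := by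
  by_contra hG
  have hd := degree_of_fk_mul_mem hk hG h
  omega

end Pool.MP_70e04f_ag.Add
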