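import Pool.Agent.Lib_MP_70e04f_add.Sys

/-!
# The substitution `y = u + x ^ k` (piece PSI)

PAPER PROOFS. `psi k` is an automorphism with inverse `aeval ![X 0, X 1 - X 0 ^ k]`; it maps
`fk k` to `X 1`. It maps the ideal of the point `(x, u + x ^ k)` onto the ideal of `(x, u)`.
`psi (X 0 ^ a * X 1 ^ b) = ∑ t ≤ b, choose b t • X 0 ^ (a + k (b - t)) * X 1 ^ t`, whose exponents
`(a + k (b - t), t)` lie in `box k N` if `a + b < N`.
-/

namespace Pool.MP_70e04f_ag.Add

open MvPolynomial Pool.MP_70e04f_ag.Hex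

/-- The inverse substitution. -/
noncomputable def psiInv (k : ℕ) : MvPolynomial (Fin 2) ℝ →ₐ[ℝ] MvPolynomial (Fin 2) ℝ :=
  aeval ![X 0, X 1 - X 0 ^ k]

lemma psi_X0 (k : ℕ) : psi k (X 0) = X 0 := by
  unfold psi
  rw [aeval_X]
  rfl

lemma psi_X1 (k : ℕ) : psi k (X 1) = X 1 + X 0 ^ k := by
  unfold psi
  rw [aeval_X]
  rfl

lemma psiInv_X0 (k : ℕ) : psiInv k (X 0) = X 0 := by
  unfold psiInv
  rw [aeval_X]
  rfl

lemma psiInv_X1 (k : ℕ) : psiInv k (X 1) = X 1 - X 0 ^ k := by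
  unfold psiInv
  rw [aeval_X]
  rfl

lemma psiInv_psi (k : ℕ) (F : MvPolynomial (Fin 2) ℝ) : psiInv k (psi k F) = F := by
  have h : (psiInv k).comp (psi k) = AlgHom.id ℝ _ := by
    apply MvPolynomial.algHom_ext
    intro i
    fin_cases i
    · show psiInv k (psi k (X 0)) = X 0
      rw [psi_X0, psiInv_X0]
    · show psiInv k (psi k (X 1)) = X 1
      rw [psi_X1, map_add, map_pow, psiInv_X0, psiInv_X1, sub_add_cancel]
  exact DFunLike.congr_fun h F

lemma psi_psiInv (k : ℕ) (F : MvPolynomial (Fin 2) ℝ) : psi k (psiInv k F) = F := by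
  have h : (psi k).comp (psiInv k) = AlgHom.id ℝ _ := by
    apply MvPolynomial.algHom_ext
    intro i
    fin_cases i
    · show psi k (psiInv k (X 0)) = X 0
      rw [psiInv_X0, psi_X0]
    · show psi k (psiInv k (X 1)) = X 1
      rw [psiInv_X1, map_sub, map_pow, psi_X0, psi_X1, add_sub_cancel_right]
  exact DFunLike.congr_fun h F

lemma psi_injective (k : ℕ) : Function.Injective (psi k) :=
  Function.LeftInverse.injective (psiInv_psi k)

lemma psi_fk (k : ℕ) : psi k (fk k) = X 1 := by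
  unfold fk
  rw [map_sub, map_pow, psi_X0, psi_X1, add_sub_cancel_right]

lemma psi_surjective (k : ℕ) : Function.Surjective (psi k) :=
  Function.RightInverse.surjective (psi_psiInv k)

lemma eval_psi (k : ℕ) (x u : ℝ) (F : MvPolynomial (Fin 2) ℝ) :
    MvPolynomial.eval ![x, u] (psi k F) = MvPolynomial.eval ![x, u + x ^ k] F := by
  have h : ((aeval ![x, u] : MvPolynomial (Fin 2) ℝ →ₐ[ℝ] ℝ)).comp (psi k) =
      aeval ![x, u + x ^ k] := by
    apply MvPolynomial.algHom_ext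
    intro i
    fin_cases i
    · show aeval ![x, u] (psi k (X 0)) = aeval ![x, u + x ^ k] (X 0)
      rw [psi_X0, aeval_X, aeval_X]
      rfl
    · show aeval ![x, u] (psi k (X 1)) = aeval ![x, u + x ^ k] (X 1)
      rw [psi_X1, map_add, map_pow, aeval_X, aeval_X, aeval_X]
      rfl
  have h2 := DFunLike.congr_fun h F
  rw [← MvPolynomial.coe_aeval_eq_eval, ← MvPolynomial.coe_aeval_eq_eval]
  exact h2

lemma psi_mem_pow_aux {f : MvPolynomial (Fin 2) ℝ →ₐ[ℝ] MvPolynomial (Fin 2) ℝ}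
    {I J : Ideal (MvPolynomial (Fin 2) ℝ)} (h : ∀ F ∈ I, f F ∈ J) (m : ℕ)
    {F : MvPolynomial (Fin 2) ℝ} (hF : F ∈ I ^ m) : f F ∈ J ^ m := by
  have h1 : Ideal.map f.toRingHom I ≤ J := by
    rw [Ideal.map_le_iff_le_comap]
    intro G hG
    exact h G hG
  have h2 : f.toRingHom F ∈ Ideal.map f.toRingHom (I ^ m) := Ideal.mem_map_of_mem _ hF
  rw [Ideal.map_pow] at h2
  exact Ideal.pow_right_mono h1 m h2

/-- The substitution and the vanishing order. -/
lemma psi_mem_iff (k m : ℕ) (x u : ℝ) (F : MvPolynomial (Fin 2) ℝ) :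
    psi k F ∈ (RingHom.ker (MvPolynomial.eval ![x, u]) : Ideal (MvPolynomial (Fin 2) ℝ)) ^ m ↔
      F ∈ (RingHom.ker (MvPolynomial.eval ![x, u + x ^ k]) :
        Ideal (MvPolynomial (Fin 2) ℝ)) ^ m := by
  constructor
  · intro h
    have h1 := psi_mem_pow_aux (f := psiInv k)
      (J := RingHom.ker (MvPolynomial.eval ![x, u + x ^ k])) (by
        intro G hG
        rw [RingHom.mem_ker] at hG ⊢
        rw [← eval_psi, psi_psiInv, hG]) m h
    rwa [psiInv_psi] at h1
  · intro h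
    exact psi_mem_pow_aux (f := psi k) (by
        intro G hG
        rw [RingHom.mem_ker] at hG ⊢
        rw [eval_psi, hG]) m h

/-- The monomials of the set of exponents. -/
lemma monomial_mem_range {S : Finset (ℕ × ℕ)} {q : ℕ × ℕ} (hq : q ∈ S) :
    (X 0 ^ q.1 * X 1 ^ q.2 : MvPolynomial (Fin 2) ℝ) ∈ LinearMap.range (toPS S) := by
  classical
  refine ⟨Pi.single ⟨q, hq⟩ 1, ?_⟩
  unfold toPS
  rw [Fintype.linearCombination_apply_single, one_smul]

/-- The exponents after the substitution. -/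
lemma psi_mem_range (k N : ℕ) (F : MvPolynomial (Fin 2) ℝ)
    (h : F ∈ LinearMap.range (toPS (tri N))) : psi k F ∈ LinearMap.range (toPS (box k N)) := by
  obtain ⟨v, rfl⟩ := h
  unfold toPS
  rw [Fintype.linearCombination_apply, map_sum]
  apply Submodule.sum_mem
  intro q _
  rw [map_smul]
  apply Submodule.smul_mem
  rw [map_mul, map_pow, map_pow, psi_X0, psi_X1, add_pow, Finset.mul_sum]
  apply Submodule.sum_mem
  intro t ht
  have ht' : t ≤ q.1.2 := Nat.lt_succ_iff.mp (Finset.mem_range.mp ht)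
  have hq := mem_tri.mp q.2
  have e : (X 0 ^ q.1.1 * (X 1 ^ t * (X 0 ^ k) ^ (q.1.2 - t) *
      ((q.1.2.choose t : ℕ) : MvPolynomial (Fin 2) ℝ)) : MvPolynomial (Fin 2) ℝ) =
      (q.1.2.choose t : ℝ) • (X 0 ^ (q.1.1 + k * (q.1.2 - t)) * X 1 ^ t) := by
    rw [MvPolynomial.smul_eq_C_mul, map_natCast, ← pow_mul, pow_add]
    ring
  rw [e]
  apply Submodule.smul_mem
  refine monomial_mem_range (q := (q.1.1 + k * (q.1.2 - t), t)) (mem_box.mpr ⟨?_, ?_⟩)
  · have h1 : k * (q.1.2 - t) ≤ k * N := by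
      apply Nat.mul_le_mul_left
      omega
    have h2 : (k + 1) * N = k * N + N := by ring
    show q.1.1 + k * (q.1.2 - t) < (k + 1) * N
    omega
  · show t < N
    omega

/-- Divisibility by `X 1 ^ j` in terms of the coefficients. -/
lemma X1_pow_dvd_iff (j : ℕ) (F : MvPolynomial (Fin 2) ℝ) :
    (X 1 : MvPolynomial (Fin 2) ℝ) ^ j ∣ F ↔ ∀ s, s 1 < j → coeff s F = 0 := by
  rw [X_pow_eq_monomial, monomial_one_dvd_iff_modMonomial_eq_zero]
  constructor
  · intro h s hs
    have h1 : ¬ Finsupp.single 1 j ≤ s := by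
      rw [Finsupp.single_le_iff]
      omega
    rw [← coeff_modMonomial_of_not_le F h1, h, coeff_zero]
  · intro h
    ext s
    rw [coeff_zero]
    by_cases h1 : Finsupp.single 1 j ≤ s
    · exact coeff_modMonomial_of_le F h1
    · rw [coeff_modMonomial_of_not_le F h1]
      apply h
      rw [Finsupp.single_le_iff] at h1
      omega

end Pool.MP_70e04f_ag.Add
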