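import Pool.Agent.Lib_MP_70e04f_add.Init
import Pool.Agent.Lib_MP_70e04f_add.Psi
import Pool.Agent.Lib_MP_70e04f_add.Div

/-!
# The filtration by the order along the curve (pieces FILT and STEP)

`Vt k N m q` is the space of coefficient vectors of the polynomials `psi k F`, `F ∈ Lsys N m q`.

PAPER PROOF of `finrank_Vt` and `finrank_Vt_low`. `toPS (box k N)` is injective and, by
`psi_mem_range`, maps `Vt` isomorphically onto `psi k (Lsys N m q)`. The vectors in `low _ j`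
are those with `X 1 ^ j ∣ psi k F` (`X1_pow_dvd_iff`), i.e. (`psi_fk`, `psi_surjective`,
`psi_injective`) `fk k ^ j ∣ F`, `F = fk k ^ j * G`. If `j k ≤ N` then `G ↦ F` is an isomorphism
from `Lsys (N - j k) m q` onto them (`fk_mul_mem`, `mem_of_fk_mul_mem`); if `N ≤ j k` then `G = 0`
(`eq_zero_of_fk_mul_mem`) and `Lsys 0 m q = ⊥`.

PAPER PROOF of `leadQ_step`. Let `F' = psi k F` have the leading exponent `(δ, j + 1)`. All
coefficients of `F'` with second exponent `≤ j` vanish, so `F' = X 1 ^ (j + 1) * G'`,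
`F = fk k ^ (j + 1) * G`, `G' = psi k G`, and `G ∈ Lsys (N - (j + 1) k)`, `G ≠ 0`, so
`(j + 1) k < N`. The polynomial `G' (X, 0)` has degree `δ` (it is the coefficient of
`X 1 ^ (j + 1)` in `F'`). Put `F2 = fk k ^ j * (X 0 ^ a * X 1 ^ b * G)`; by `mul_mem_Lsys`,
`Lsys_mono` and `fk_mul_mem` it is in `Lsys N m q` as `a + b ≤ k`. Now
`psi k F2 = X 1 ^ j * (X 0 ^ a * (X 1 + X 0 ^ k) ^ b * G')`, whose lowest power of `X 1` is `j`
with coefficient `X 0 ^ (a + k b) * G' (X, 0)` of degree `δ + a + k b`: its leading exponent is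
`(δ + a + k b, j)`. (Useful: for `H = X 1 ^ j * K`, `coeff (mon c j) H = coeff (mon c 0) K`, and
`coeff (mon c 0) K = (aeval ![X, 0] K : ℝ[X]).coeff c`, a ring homomorphism in `K`.)
-/

namespace Pool.MP_70e04f_ag.Add

open MvPolynomial Pool.MP_70e04f_ag.Hex

/-- The coefficient vectors of `psi k F`, `F ∈ Lsys N m q`. -/
noncomputable def Vt {τ : Type*} (k N : ℕ) (m : τ → ℕ) (q : τ → Fin 2 → ℝ) :
    Submodule ℝ (↥(box k N) → ℝ) :=
  ((Lsys N m q).map (psi k).toLinearMap).comap (toPS (box k N))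

lemma mem_Vt {τ : Type*} {k N : ℕ} {m : τ → ℕ} {q : τ → Fin 2 → ℝ} {v : ↥(box k N) → ℝ} :
    v ∈ Vt k N m q ↔ ∃ F ∈ Lsys N m q, psi k F = toPS (box k N) v := by
  unfold Vt
  rw [Submodule.mem_comap, Submodule.mem_map]
  rfl

/-- Coefficients of the polynomial with given coefficients. -/
lemma coeff_toPS_eq_zero_of_low {S : Finset (ℕ × ℕ)} {j : ℕ} {v : ↥S → ℝ} (hv : v ∈ low S j)
    {s : Fin 2 →₀ ℕ} (hs : s 1 < j) : coeff s (toPS S v) = 0 := by
  by_contra hne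
  have h1 : (s 0, s 1) ∈ S := mem_range_toPS.mp ⟨v, rfl⟩ s hne
  have h2 := coeff_toPS v ⟨(s 0, s 1), h1⟩
  rw [mon_eta] at h2
  exact hne (h2.trans (mem_low.mp hv ⟨(s 0, s 1), h1⟩ hs))

/-- The system of polynomials of degree `< 0`. -/
lemma eq_zero_of_mem_Lsys_zero {τ : Type*} {m : τ → ℕ} {q : τ → Fin 2 → ℝ}
    {G : MvPolynomial (Fin 2) ℝ} (hG : G ∈ Lsys 0 m q) : G = 0 := by
  obtain ⟨v, rfl⟩ := hG.1
  have h : v = 0 := by
    funext r
    have := mem_tri.mp r.2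
    omega
  rw [h, map_zero]

/-- The linear map `G ↦ psi k (fk k ^ j * G)`. -/
noncomputable def psiMul (k j : ℕ) : MvPolynomial (Fin 2) ℝ →ₗ[ℝ] MvPolynomial (Fin 2) ℝ :=
  (psi k).toLinearMap.comp (LinearMap.mulLeft ℝ (fk k ^ j))

lemma psiMul_apply (k j : ℕ) (G : MvPolynomial (Fin 2) ℝ) :
    psiMul k j G = psi k (fk k ^ j * G) := rfl

lemma psiMul_injective (k j : ℕ) : Function.Injective (psiMul k j) := by
  intro G G' h
  rw [psiMul_apply, psiMul_apply] at h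
  exact mul_left_cancel₀ (pow_ne_zero j (fk_ne_zero k)) (psi_injective k h)

lemma map_Vt_low {τ : Type*} {k N : ℕ} (hk : 1 ≤ k) {m : τ → ℕ} {q : τ → Fin 2 → ℝ}
    (hq : ∀ t, q t 1 ≠ q t 0 ^ k) (j : ℕ) :
    (Vt k N m q ⊓ low (box k N) j).map (toPS (box k N)) =
      (Lsys (N - j * k) m q).map (psiMul k j) := by
  apply le_antisymm
  · rintro _ ⟨v, ⟨hv1, hv2⟩, rfl⟩
    obtain ⟨F, hF, he⟩ := mem_Vt.mp hv1
    have h1 : (X 1 : MvPolynomial (Fin 2) ℝ) ^ j ∣ psi k F := by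
      rw [X1_pow_dvd_iff, he]
      intro s hs
      exact coeff_toPS_eq_zero_of_low hv2 hs
    obtain ⟨H, hH⟩ := h1
    obtain ⟨G, rfl⟩ := psi_surjective k H
    have h2 : F = fk k ^ j * G := by
      apply psi_injective k
      rw [hH, map_mul, map_pow, psi_fk]
    rw [h2] at hF
    refine ⟨G, mem_of_fk_mul_mem hk hq hF, ?_⟩
    rw [psiMul_apply, ← h2, he]
  · rintro _ ⟨G, hG, rfl⟩
    have hF : fk k ^ j * G ∈ Lsys N m q := by
      rcases le_or_gt (j * k) N with h | h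
      · exact fk_mul_mem hk h hG
      · have h0 : N - j * k = 0 := by omega
        rw [h0] at hG
        rw [eq_zero_of_mem_Lsys_zero hG, mul_zero]
        exact Submodule.zero_mem _
    obtain ⟨v, hv⟩ := psi_mem_range k N _ hF.1
    refine ⟨v, ⟨mem_Vt.mpr ⟨_, hF, hv.symm⟩, ?_⟩, hv⟩
    rw [SetLike.mem_coe, mem_low]
    intro r hr
    rw [← coeff_toPS v r, hv, map_mul, map_pow, psi_fk]
    apply (X1_pow_dvd_iff j _).mp ⟨_, rfl⟩
    rwa [mon_one']

/-- The dimension of the part of order `≥ j` along the curve. -/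
theorem finrank_Vt_low {τ : Type*} {k N : ℕ} (hk : 1 ≤ k) {m : τ → ℕ} {q : τ → Fin 2 → ℝ}
    (hq : ∀ t, q t 1 ≠ q t 0 ^ k) (j : ℕ) :
    Module.finrank ℝ ↥(Vt k N m q ⊓ low (box k N) j) = hT (N - j * k) m q := by
  rw [(Submodule.equivMapOfInjective (toPS (box k N)) (toPS_injective _)
    (Vt k N m q ⊓ low (box k N) j)).finrank_eq, map_Vt_low hk hq j]
  exact (Submodule.equivMapOfInjective (psiMul k j) (psiMul_injective k j)
    (Lsys (N - j * k) m q)).finrank_eq.symm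

end Pool.MP_70e04f_ag.Add
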