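import Pool.Agent.Lib_MP_70e04f_add.Defs

/-!
# Basic facts on the systems (piece SYS)

`toPS (tri N)` is `toPoly ℝ N` of `Lib_MP_70e04f_ag/Mat.lean`; `coeff_toPoly`,
`toPoly_injective`, `mem_range_toPoly`, `toPoly_mem_iff`, `finrank_system` there have the same
proofs as the first four statements here (replace `tri N` by `S`, `condMat` by `condP`).
-/

namespace Pool.MP_70e04f_ag.Add

open MvPolynomial Pool.MP_70e04f_ag.Hex

lemma toPS_apply {S : Finset (ℕ × ℕ)} (v : ↥S → ℝ) :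
    toPS S v = ∑ q : ↥S, v q • (X 0 ^ q.1.1 * X 1 ^ q.1.2 : MvPolynomial (Fin 2) ℝ) := rfl

lemma coeff_toPS {S : Finset (ℕ × ℕ)} (v : ↥S → ℝ) (q : ↥S) :
    coeff (mon q.1.1 q.1.2) (toPS S v) = v q := by
  classical
  rw [toPS_apply, coeff_sum]
  simp only [coeff_smul, X_pow_mul_X_pow, coeff_monomial, smul_eq_mul, mul_ite, mul_one, mul_zero]
  rw [Finset.sum_eq_single q]
  · simp
  · intro b _ hb
    rw [if_neg]
    intro h
    apply hb
    have := mon_inj.1 h
    exact Subtype.ext (Prod.ext this.1 this.2)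
  · intro h; exact absurd (Finset.mem_univ q) h

lemma toPS_injective (S : Finset (ℕ × ℕ)) : Function.Injective (toPS S) := by
  intro v w h
  funext q
  rw [← coeff_toPS v q, h, coeff_toPS]

lemma coeff_toPS_of_notMem {S : Finset (ℕ × ℕ)} (v : ↥S → ℝ) {s : Fin 2 →₀ ℕ}
    (hs : (s 0, s 1) ∉ S) : coeff s (toPS S v) = 0 := by
  classical
  rw [toPS_apply, coeff_sum]
  apply Finset.sum_eq_zero
  intro q _
  rw [coeff_smul, X_pow_mul_X_pow, coeff_monomial, if_neg, smul_zero]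
  intro h
  apply hs
  rw [← h, mon_zero', mon_one']
  exact q.2

lemma mem_range_toPS {S : Finset (ℕ × ℕ)} {F : MvPolynomial (Fin 2) ℝ} :
    F ∈ LinearMap.range (toPS S) ↔ ∀ s, coeff s F ≠ 0 → (s 0, s 1) ∈ S := by
  classical
  constructor
  · rintro ⟨v, rfl⟩ s hs
    by_contra h
    exact hs (coeff_toPS_of_notMem v h)
  · intro h
    refine ⟨fun q => coeff (mon q.1.1 q.1.2) F, ?_⟩
    ext s
    by_cases hs : (s 0, s 1) ∈ S
    · have := coeff_toPS (S := S) (fun q => coeff (mon q.1.1 q.1.2) F) ⟨(s 0, s 1), hs⟩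
      simpa only [mon_eta] using this
    · rw [coeff_toPS_of_notMem _ hs]
      by_contra h1
      exact hs (h s (fun h2 => h1 h2.symm))

lemma mem_range_tri {N : ℕ} {F : MvPolynomial (Fin 2) ℝ} :
    F ∈ LinearMap.range (toPS (tri (N + 1))) ↔ F.totalDegree ≤ N := by
  rw [← mem_restrictTotalDegree, mem_range_toPoly]
  rfl

/-- The conditions in terms of the matrix `condP`. -/
lemma toPS_mem_iff {ι : Type*} {S : Finset (ℕ × ℕ)} (m : ι → ℕ) (p : ι → Fin 2 → ℝ)
    (v : ↥S → ℝ) : toPS S v ∈ vanish m p ↔ (condP S m p).mulVec v = 0 := by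
  have key : ∀ (i : ι) (q : ℕ × ℕ), coeff (mon q.1 q.2) (shift (p i) (toPS S v)) =
      ∑ r : ↥S, ec (p i 0) (p i 1) r.1.1 r.1.2 q.1 q.2 * v r := by
    intro i q
    rw [toPS_apply, map_sum, coeff_sum]
    refine Finset.sum_congr rfl fun r _ => ?_
    rw [map_smul, coeff_smul, coeff_shift_mon, smul_eq_mul, mul_comm]
  rw [mem_vanish]
  constructor
  · intro h
    funext c
    have := (mem_ker_pow_iff (p c.1) (m c.1) _).1 (h c.1) c.2.1 c.2.2
    rw [key] at this
    exact this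
  · intro h i
    rw [mem_ker_pow_iff]
    intro q hq
    rw [key]
    exact congrFun h ⟨i, ⟨q, hq⟩⟩

lemma Lsys_eq_map {τ : Type*} (N : ℕ) (m : τ → ℕ) (q : τ → Fin 2 → ℝ) :
    Lsys N m q = (LinearMap.ker (condP (tri N) m q).mulVecLin).map (toPS (tri N)) := by
  ext f
  unfold Lsys
  rw [Submodule.mem_inf, Submodule.mem_map]
  constructor
  · rintro ⟨⟨v, rfl⟩, h⟩
    refine ⟨v, ?_, rfl⟩
    rw [LinearMap.mem_ker, Matrix.mulVecLin_apply, ← toPS_mem_iff]
    exact h
  · rintro ⟨v, hv, rfl⟩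
    refine ⟨⟨v, rfl⟩, ?_⟩
    rw [LinearMap.mem_ker, Matrix.mulVecLin_apply, ← toPS_mem_iff] at hv
    exact hv

/-- The dimension as the dimension of a kernel. -/
lemma hT_eq {τ : Type*} [Fintype τ] (N : ℕ) (m : τ → ℕ) (q : τ → Fin 2 → ℝ) :
    hT N m q = Module.finrank ℝ (LinearMap.ker (condP (tri N) m q).mulVecLin) := by
  unfold hT
  rw [Lsys_eq_map]
  exact (LinearEquiv.finrank_eq (Submodule.equivMapOfInjective _ (toPS_injective (tri N)) _)).symm

lemma Lsys_mono {τ : Type*} {N N' : ℕ} (h : N ≤ N') (m : τ → ℕ) (q : τ → Fin 2 → ℝ) :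
    Lsys N m q ≤ Lsys N' m q := by
  intro F hF
  refine ⟨?_, hF.2⟩
  have h1 := hF.1
  rw [SetLike.mem_coe, mem_range_toPS] at h1
  rw [SetLike.mem_coe, mem_range_toPS]
  intro s hs
  have := mem_tri.1 (h1 s hs)
  exact mem_tri.2 (this.trans_le h)

/-- Multiplication by a polynomial of degree `≤ a`. -/
lemma mul_mem_Lsys {τ : Type*} {N a : ℕ} {m : τ → ℕ} {q : τ → Fin 2 → ℝ}
    {A G : MvPolynomial (Fin 2) ℝ} (hA : A.totalDegree ≤ a) (hG : G ∈ Lsys N m q) :
    A * G ∈ Lsys (N + a) m q := by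
  have hv : A * G ∈ vanish m q := by
    rw [mem_vanish]
    intro t
    exact Ideal.mul_mem_left _ _ (mem_vanish.1 hG.2 t)
  rcases N with _ | M
  · have h1 := hG.1
    rw [SetLike.mem_coe, mem_range_toPS] at h1
    have h2 : G = 0 := by
      ext s
      by_contra hs
      have := mem_tri.1 (h1 s hs)
      omega
    rw [h2, mul_zero]
    exact Submodule.zero_mem _
  · refine ⟨?_, hv⟩
    have h1 := hG.1
    rw [SetLike.mem_coe, mem_range_tri] at h1
    have e : M + 1 + a = (M + a) + 1 := by ring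
    rw [e, SetLike.mem_coe, mem_range_tri]
    refine (totalDegree_mul _ _).trans ?_
    omega

/-- The systems are finite dimensional. -/
instance Lsys_finite {τ : Type*} (N : ℕ) (m : τ → ℕ) (q : τ → Fin 2 → ℝ) :
    Module.Finite ℝ (Lsys N m q) := by
  unfold Lsys
  exact Submodule.finiteDimensional_inf_left _ _

end Pool.MP_70e04f_ag.Add
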