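import Pool.Agent.Lib_MP_70e04f_add.Lead
import Pool.Agent.Lib_MP_70e04f_add.Sys

/-!
# Degeneration of a space of polynomials to its leading exponents (piece INIT)

`V` is a space of coefficient vectors on `S`, `q.1 < N0` for `q ∈ S`, so that `wt N0` is injective
on `S`. `Q` is the set of leading exponents.

PAPER PROOF. Let `v q`, `q ∈ lead`, be the basis of `exists_lead_basis`, and let `p i = (x, u)` be
good for `Q`. For a commutative ring `R`, `e : R` and `x, u : ι → R` let `D e` be the matrix with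
rows `(i, (α, β))`, columns `q ∈ Q` and entries
`∑ r : S, (v q r) * e ^ (wt q - wt r).toNat * ec (x i) (u i) r.1 r.2 α β`.
For `e = 0` only `r = q` remains (`wt` injective, `v q r = 0` if `wt r > wt q`), so
`D 0 = condP Q m p` is good; by `exists_detpoly` over `ℝ[e]` (see `real_of_good` in
`Lib_MP_70e04f_ag/General.lean`) `D e` is good for some `e ≠ 0`; by taking `g * X` with `g` the
polynomial of `exists_detpoly`. For `e ≠ 0` put `p' i = ![x i / e, e ^ N0 * u i]`. As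
`ec (c x) (c' u) a b α β * c ^ α * c' ^ β = c ^ a * c' ^ b * ec x u a b α β`, for
`w = ∑ a q • v q ∈ V` the conditions `condP S m p' *ᵥ w = 0` say (multiply by
`(x-scale) e ^ (-α) * e ^ (N0 β)`) `∑ q, a q * ∑ r, v q r * e ^ (-wt r) * ec (x i) (u i) r.1 r.2 α β = 0`
(`zpow`), i.e. `D e *ᵥ b = 0` with `b q = a q * e ^ (-wt q)`. So
`finrank (V ⊓ ker (condP S m p')) ≤ finrank (ker (D e)) ≤ card Q - card (Σ i, tri (m i))`.
-/

namespace Pool.MP_70e04f_ag.Add

open MvPolynomial Pool.MP_70e04f_ag.Hex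

/-- The leading exponents as a set of exponents. -/
noncomputable def leadQ (N0 : ℕ) (S : Finset (ℕ × ℕ)) (V : Submodule ℝ (↥S → ℝ)) :
    Finset (ℕ × ℕ) :=
  (lead (fun q : ↥S => wt N0 q.1) V).map (Function.Embedding.subtype _)

lemma mem_leadQ {N0 : ℕ} {S : Finset (ℕ × ℕ)} {V : Submodule ℝ (↥S → ℝ)} {q : ℕ × ℕ} :
    q ∈ leadQ N0 S V ↔ ∃ h : q ∈ S, (⟨q, h⟩ : ↥S) ∈ lead (fun q : ↥S => wt N0 q.1) V := by
  unfold leadQ
  rw [Finset.mem_map]
  constructor
  · rintro ⟨r, hr, rfl⟩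
    exact ⟨r.2, hr⟩
  · rintro ⟨h, hq⟩
    exact ⟨⟨q, h⟩, hq, rfl⟩

lemma wt_injective {N0 : ℕ} {S : Finset (ℕ × ℕ)} (hS : ∀ q ∈ S, q.1 < N0) :
    Function.Injective (fun q : ↥S => wt N0 q.1) := by
  rintro ⟨⟨a, b⟩, h1⟩ ⟨⟨a', b'⟩, h2⟩ h
  have e1 : a < N0 := hS _ h1
  have e2 : a' < N0 := hS _ h2
  have h' : (a : ℤ) - (N0 : ℤ) * (b : ℤ) = (a' : ℤ) - (N0 : ℤ) * (b' : ℤ) := h
  have hb : b = b' := by
    rcases lt_trichotomy b b' with hlt | hlt | hlt
    · exfalso
      have : (b : ℤ) + 1 ≤ (b' : ℤ) := by exact_mod_cast hlt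
      have h3 : (N0 : ℤ) * ((b : ℤ) + 1) ≤ (N0 : ℤ) * (b' : ℤ) := by gcongr
      have h4 : (a' : ℤ) < (N0 : ℤ) := by exact_mod_cast e2
      have h5 : (0 : ℤ) ≤ (a : ℤ) := Int.natCast_nonneg a
      linarith
    · exact hlt
    · exfalso
      have : (b' : ℤ) + 1 ≤ (b : ℤ) := by exact_mod_cast hlt
      have h3 : (N0 : ℤ) * ((b' : ℤ) + 1) ≤ (N0 : ℤ) * (b : ℤ) := by gcongr
      have h4 : (a : ℤ) < (N0 : ℤ) := by exact_mod_cast e1
      have h5 : (0 : ℤ) ≤ (a' : ℤ) := Int.natCast_nonneg a'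
      linarith
  subst hb
  have ha : a = a' := by
    have : (a : ℤ) = (a' : ℤ) := by linarith
    exact_mod_cast this
  subst ha
  rfl

/-- Scaling of the coordinates in a Taylor coefficient. -/
lemma ec_scale (c d x u : ℝ) (a b α β : ℕ) :
    ec (c * x) (d * u) a b α β * (c ^ α * d ^ β) = c ^ a * d ^ b * ec x u a b α β := by
  have key : ∀ (c x : ℝ) (a α : ℕ),
      ((Polynomial.X + Polynomial.C (c * x)) ^ a : Polynomial ℝ).coeff α * c ^ α =
        c ^ a * ((Polynomial.X + Polynomial.C x) ^ a : Polynomial ℝ).coeff α := by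
    intro c x a α
    rw [Polynomial.coeff_X_add_C_pow, Polynomial.coeff_X_add_C_pow]
    rcases le_or_gt α a with h | h
    · have e : c ^ a = c ^ (a - α) * c ^ α := by
        rw [← pow_add, Nat.sub_add_cancel h]
      rw [e, mul_pow]
      ring
    · rw [Nat.choose_eq_zero_of_lt h]
      simp
  unfold ec
  have h1 := key c x a α
  have h2 := key d u b β
  calc _ = (((Polynomial.X + Polynomial.C (c * x)) ^ a : Polynomial ℝ).coeff α * c ^ α) *
        (((Polynomial.X + Polynomial.C (d * u)) ^ b : Polynomial ℝ).coeff β * d ^ β) := by ring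
    _ = _ := by
      rw [h1, h2]
      ring

/-- The degeneration to the leading exponents. -/
theorem init_degen {ι : Type*} [Fintype ι] {N0 : ℕ} {S : Finset (ℕ × ℕ)}
    (hS : ∀ q ∈ S, q.1 < N0) (V : Submodule ℝ (↥S → ℝ)) {m : ι → ℕ} (h : OK (leadQ N0 S V) m) :
    ∃ p : ι → Fin 2 → ℝ,
      Module.finrank ℝ ↥(V ⊓ LinearMap.ker (condP S m p).mulVecLin) ≤
        (leadQ N0 S V).card - Fintype.card (Σ i : ι, ↥(tri (m i))) := by
  classical
  obtain ⟨p, hp⟩ := h
  set ω : ↥S → ℤ := fun q => wt N0 q.1 with hω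
  have hinj : Function.Injective ω := wt_injective hS
  obtain ⟨v, hv, h1, h2, h3⟩ := exists_lead_basis ω hinj V
  let c : ↥(leadQ N0 S V) → ↥S := fun q => ⟨q.1, (mem_leadQ.mp q.2).1⟩
  have hc : ∀ q, c q ∈ lead ω V := fun q => (mem_leadQ.mp q.2).2
  let F : Matrix (Σ i : ι, ↥(tri (m i))) ↥(leadQ N0 S V) (Polynomial ℝ) := fun y q =>
    ∑ r : ↥S, Polynomial.C (v (c q) r) * Polynomial.X ^ (ω (c q) - ω r).toNat *
      ec (Polynomial.C (p y.1 0)) (Polynomial.C (p y.1 1)) r.1.1 r.1.2 y.2.1.1 y.2.1.2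
  let D : ℝ → Matrix (Σ i : ι, ↥(tri (m i))) ↥(leadQ N0 S V) ℝ := fun e y q =>
    ∑ r : ↥S, v (c q) r * e ^ (ω (c q) - ω r).toNat *
      ec (p y.1 0) (p y.1 1) r.1.1 r.1.2 y.2.1.1 y.2.1.2
  have hFe : ∀ e : ℝ, F.map (Polynomial.evalRingHom e) = D e := by
    intro e
    ext y q
    show Polynomial.evalRingHom e (∑ r : ↥S, Polynomial.C (v (c q) r) *
      Polynomial.X ^ (ω (c q) - ω r).toNat *
      ec (Polynomial.C (p y.1 0)) (Polynomial.C (p y.1 1)) r.1.1 r.1.2 y.2.1.1 y.2.1.2) = _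
    rw [map_sum]
    refine Finset.sum_congr rfl fun r _ => ?_
    rw [map_mul, map_mul, map_pow, ec_map]
    simp
  have hD0 : D 0 = condP (leadQ N0 S V) m p := by
    ext y q
    show ∑ r : ↥S, v (c q) r * (0 : ℝ) ^ (ω (c q) - ω r).toNat *
      ec (p y.1 0) (p y.1 1) r.1.1 r.1.2 y.2.1.1 y.2.1.2 = _
    rw [Finset.sum_eq_single (c q)]
    · rw [h1 _ (hc q), sub_self, Int.toNat_zero, pow_zero, one_mul, one_mul]
      rfl
    · intro r _ hr
      rcases lt_trichotomy (ω r) (ω (c q)) with hlt | heq | hgt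
      · have : (ω (c q) - ω r).toNat ≠ 0 := by omega
        rw [zero_pow this, mul_zero, zero_mul]
      · exact absurd (hinj heq) hr
      · rw [h2 _ (hc q) r hgt, zero_mul, zero_mul]
    · intro hn
      exact absurd (Finset.mem_univ _) hn
  have hcc : ∀ e : ℝ, (Polynomial.evalRingHom e).comp (Polynomial.C : ℝ →+* Polynomial ℝ) =
      RingHom.id ℝ := by
    intro e
    ext r
    simp
  obtain ⟨g, hg0, hgg⟩ := exists_detpoly (Polynomial.C : ℝ →+* Polynomial ℝ) F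
    (Polynomial.evalRingHom 0) (hcc 0) (by rw [hFe, hD0]; exact hp)
  have hgX : g * Polynomial.X ≠ 0 := by
    apply mul_ne_zero
    · rintro rfl
      simp at hg0
    · exact Polynomial.X_ne_zero
  obtain ⟨e, he⟩ : ∃ e : ℝ, (g * Polynomial.X).eval e ≠ 0 := by
    by_contra hcon
    push Not at hcon
    apply hgX
    apply Polynomial.funext
    intro r
    rw [hcon r]
    simp
  rw [Polynomial.eval_mul, Polynomial.eval_X] at he
  have he1 : g.eval e ≠ 0 := left_ne_zero_of_mul he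
  have he2 : e ≠ 0 := right_ne_zero_of_mul he
  have hDe : Good (D e) := by
    rw [← hFe]
    exact hgg _ (hcc e) he1
  refine ⟨fun i => ![e⁻¹ * p i 0, e ^ N0 * p i 1], ?_⟩
  -- the parametrisation
  let θ : (↥(leadQ N0 S V) → ℝ) →ₗ[ℝ] (↥S → ℝ) :=
    Fintype.linearCombination ℝ (fun q : ↥(leadQ N0 S V) => (e ^ ω (c q) : ℝ) • v (c q))
  have hsum : ∀ G : ↥S → (↥S → ℝ), ∑ q ∈ lead ω V, G q = ∑ q : ↥(leadQ N0 S V), G (c q) := by
    intro G
    symm
    apply Finset.sum_bij (fun (q : ↥(leadQ N0 S V)) _ => c q)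
    · intro q _
      exact hc q
    · intro q _ q' _ hqq
      exact Subtype.ext (congrArg (fun z : ↥S => z.1) hqq)
    · intro s hs
      exact ⟨⟨s.1, mem_leadQ.mpr ⟨s.2, hs⟩⟩, Finset.mem_univ _, rfl⟩
    · intro q _
      rfl
  have hle : V ⊓ LinearMap.ker (condP S m (fun i => ![e⁻¹ * p i 0, e ^ N0 * p i 1])).mulVecLin ≤
      (LinearMap.ker (D e).mulVecLin).map θ := by
    rintro w ⟨hwV, hwK⟩
    obtain ⟨a, ha⟩ := h3 w hwV
    rw [hsum] at ha
    refine ⟨fun q => a (c q) * e ^ (-ω (c q)), ?_, ?_⟩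
    · rw [SetLike.mem_coe, LinearMap.mem_ker, Matrix.mulVecLin_apply]
      funext y
      rw [SetLike.mem_coe, LinearMap.mem_ker, Matrix.mulVecLin_apply] at hwK
      have hy := congrFun hwK y
      have hy' : ∑ r : ↥S, ec (e⁻¹ * p y.1 0) (e ^ N0 * p y.1 1) r.1.1 r.1.2 y.2.1.1 y.2.1.2 *
          w r = 0 := hy
      have hw : ∀ r, w r = ∑ q : ↥(leadQ N0 S V), a (c q) * v (c q) r := by
        intro r
        rw [ha, Finset.sum_apply]
        rfl
      have hsc : ∀ r : ↥S, ec (e⁻¹ * p y.1 0) (e ^ N0 * p y.1 1) r.1.1 r.1.2 y.2.1.1 y.2.1.2 *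
          ((e⁻¹) ^ y.2.1.1 * (e ^ N0) ^ y.2.1.2) =
          e ^ (-ω r) * ec (p y.1 0) (p y.1 1) r.1.1 r.1.2 y.2.1.1 y.2.1.2 := by
        intro r
        rw [ec_scale]
        congr 1
        have : -ω r = -(r.1.1 : ℤ) + ((N0 * r.1.2 : ℕ) : ℤ) := by
          show -((r.1.1 : ℤ) - (N0 : ℤ) * (r.1.2 : ℤ)) = _
          push_cast
          ring
        rw [this, zpow_add₀ he2, zpow_neg, zpow_natCast, zpow_natCast, inv_pow, pow_mul]
      show ∑ q : ↥(leadQ N0 S V), D e y q * (a (c q) * e ^ (-ω (c q))) = 0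
      have hterm : ∀ q : ↥(leadQ N0 S V), D e y q * (a (c q) * e ^ (-ω (c q))) =
          ∑ r : ↥S, a (c q) * v (c q) r *
            (e ^ (-ω r) * ec (p y.1 0) (p y.1 1) r.1.1 r.1.2 y.2.1.1 y.2.1.2) := by
        intro q
        show (∑ r : ↥S, v (c q) r * e ^ (ω (c q) - ω r).toNat *
          ec (p y.1 0) (p y.1 1) r.1.1 r.1.2 y.2.1.1 y.2.1.2) * (a (c q) * e ^ (-ω (c q))) = _
        rw [Finset.sum_mul]
        refine Finset.sum_congr rfl fun r _ => ?_
        rcases lt_or_ge (ω (c q)) (ω r) with hlt | hge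
        · rw [h2 _ (hc q) r hlt]
          simp
        · have e3 : (e : ℝ) ^ (ω (c q) - ω r).toNat = e ^ (ω (c q) - ω r) := by
            rw [← zpow_natCast, Int.toNat_of_nonneg (by omega)]
          have e4 : (e : ℝ) ^ (-ω r) = e ^ (ω (c q) - ω r) * e ^ (-ω (c q)) := by
            rw [← zpow_add₀ he2]
            congr 1
            ring
          rw [e3, e4]
          ring
      rw [Finset.sum_congr rfl fun q _ => hterm q, Finset.sum_comm]
      have hfin : ∀ r : ↥S, ∑ q : ↥(leadQ N0 S V), a (c q) * v (c q) r *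
            (e ^ (-ω r) * ec (p y.1 0) (p y.1 1) r.1.1 r.1.2 y.2.1.1 y.2.1.2) =
          (ec (e⁻¹ * p y.1 0) (e ^ N0 * p y.1 1) r.1.1 r.1.2 y.2.1.1 y.2.1.2 * w r) *
            ((e⁻¹) ^ y.2.1.1 * (e ^ N0) ^ y.2.1.2) := by
        intro r
        rw [← Finset.sum_mul, ← hw r, ← hsc r]
        ring
      rw [Finset.sum_congr rfl fun r _ => hfin r, ← Finset.sum_mul, hy', zero_mul]
    · show θ _ = w
      rw [Fintype.linearCombination_apply, ha]
      refine Finset.sum_congr rfl fun q _ => ?_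
      rw [smul_smul]
      congr 1
      rw [mul_assoc, ← zpow_add₀ he2, neg_add_cancel, zpow_zero, mul_one]
  have h4 := Submodule.finrank_mono hle
  have h5 := Submodule.finrank_map_le θ (LinearMap.ker (D e).mulVecLin)
  have h6 : Module.finrank ℝ (LinearMap.ker (D e).mulVecLin) ≤
      (leadQ N0 S V).card - Fintype.card (Σ i : ι, ↥(tri (m i))) := by
    have := hDe
    unfold Good at this
    rwa [Fintype.card_coe] at this
  exact h4.trans (h5.trans h6)

end Pool.MP_70e04f_ag.Add
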