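import Pool.Agent.Lib_MP_70e04f_add.Defs

/-!
# Leading indices of a space of vectors (piece LEAD)

PAPER PROOF. `ω` is injective, so every nonzero `w` has exactly one leading index (the index of
largest weight in the support of `w`), and `lead ω V` is the set of leading indices of the nonzero
elements of `V`. Choose for `q ∈ lead ω V` an element `v q ∈ V` with leading index `q` and
`v q q = 1`. The `v q` are linearly independent (look at the largest index in a relation) and span
`V` (strong induction on the weight of the leading index of `w ∈ V`: subtract `w q • v q`; the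
weights form a finite set). This gives `exists_lead_basis` and `card_lead`.
-/

namespace Pool.MP_70e04f_ag.Add

/-- A nonzero vector of `V` has a leading index. -/
lemma exists_lead_of_ne {I : Type*} [Fintype I] {ω : I → ℤ} {V : Submodule ℝ (I → ℝ)}
    {w : I → ℝ} (hw : w ∈ V) (h0 : w ≠ 0) :
    ∃ q ∈ lead ω V, w q ≠ 0 ∧ ∀ r, ω q < ω r → w r = 0 := by
  classical
  obtain ⟨s, hs⟩ := Function.ne_iff.mp h0
  obtain ⟨q, hq, hmax⟩ := (Finset.univ.filter fun r => w r ≠ 0).exists_max_image ω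
    ⟨s, Finset.mem_filter.mpr ⟨Finset.mem_univ _, hs⟩⟩
  have hq0 : w q ≠ 0 := (Finset.mem_filter.mp hq).2
  have hz : ∀ r, ω q < ω r → w r = 0 := by
    intro r hr
    by_contra hr0
    exact absurd (hmax r (Finset.mem_filter.mpr ⟨Finset.mem_univ _, hr0⟩)) (not_le.mpr hr)
  exact ⟨q, mem_lead.mpr ⟨w, hw, hq0, hz⟩, hq0, hz⟩

/-- Normalised elements with given leading indices. -/
lemma exists_lead_family {I : Type*} [Fintype I] (ω : I → ℤ) (V : Submodule ℝ (I → ℝ)) :
    ∃ v : I → I → ℝ, (∀ q ∈ lead ω V, v q ∈ V) ∧ (∀ q ∈ lead ω V, v q q = 1) ∧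
      (∀ q ∈ lead ω V, ∀ r, ω q < ω r → v q r = 0) := by
  classical
  have key : ∀ q : I, ∃ v : I → ℝ, q ∈ lead ω V → (v ∈ V ∧ v q = 1 ∧
      ∀ r, ω q < ω r → v r = 0) := by
    intro q
    by_cases hq : q ∈ lead ω V
    · obtain ⟨w, hw, h0, hz⟩ := mem_lead.mp hq
      refine ⟨(w q)⁻¹ • w, fun _ => ⟨V.smul_mem _ hw, ?_, ?_⟩⟩
      · rw [Pi.smul_apply, smul_eq_mul, inv_mul_cancel₀ h0]
      · intro r hr
        rw [Pi.smul_apply, hz r hr, smul_zero]
    · exact ⟨0, fun h => absurd h hq⟩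
  choose v hv using key
  exact ⟨v, fun q hq => (hv q hq).1, fun q hq => (hv q hq).2.1, fun q hq => (hv q hq).2.2⟩

/-- The combinations of a family with different leading indices. -/
lemma lead_family_injective {I : Type*} [Fintype I] {ω : I → ℤ} (hω : Function.Injective ω)
    {V : Submodule ℝ (I → ℝ)} {v : I → I → ℝ} (h1 : ∀ q ∈ lead ω V, v q q = 1)
    (h2 : ∀ q ∈ lead ω V, ∀ r, ω q < ω r → v q r = 0) (a : ↥(lead ω V) → ℝ)
    (ha : ∑ q : ↥(lead ω V), a q • v q = 0) : a = 0 := by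
  classical
  by_contra hne
  obtain ⟨s, hs⟩ := Function.ne_iff.mp hne
  obtain ⟨q, hq, hmax⟩ := ((Finset.univ : Finset ↥(lead ω V)).filter fun r => a r ≠ 0).exists_max_image
    (fun r => ω r) ⟨s, Finset.mem_filter.mpr ⟨Finset.mem_univ _, hs⟩⟩
  have hq0 : a q ≠ 0 := (Finset.mem_filter.mp hq).2
  apply hq0
  have h3 := congrFun ha q
  rw [Finset.sum_apply, Pi.zero_apply, Finset.sum_eq_single q] at h3
  · rwa [Pi.smul_apply, h1 q q.2, smul_eq_mul, mul_one] at h3
  · intro r _ hrq
    rw [Pi.smul_apply, smul_eq_mul]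
    rcases lt_trichotomy (ω r) (ω q) with h | h | h
    · rw [h2 r r.2 q h, mul_zero]
    · exact absurd (Subtype.ext (hω h)) hrq
    · have : a r = 0 := by
        by_contra hr0
        exact absurd (hmax r (Finset.mem_filter.mpr ⟨Finset.mem_univ _, hr0⟩)) (not_le.mpr h)
      rw [this, zero_mul]
  · intro h
    exact absurd (Finset.mem_univ _) h

/-- The number of leading indices. -/
theorem card_lead {I : Type*} [Fintype I] (ω : I → ℤ) (hω : Function.Injective ω)
    (V : Submodule ℝ (I → ℝ)) : (lead ω V).card = Module.finrank ℝ V := by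
  classical
  obtain ⟨v, hv, h1, h2⟩ := exists_lead_family ω V
  apply le_antisymm
  · have hli : LinearIndependent ℝ (fun q : ↥(lead ω V) => (⟨v q, hv q q.2⟩ : V)) := by
      rw [Fintype.linearIndependent_iff]
      intro a ha q
      have h3 := congrArg (V.subtype) ha
      rw [map_sum, map_zero] at h3
      have h4 := lead_family_injective hω h1 h2 a (by
        rw [← h3]
        rfl)
      rw [h4]
      rfl
    have := hli.fintype_card_le_finrank
    rwa [Fintype.card_coe] at this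
  · let f : V →ₗ[ℝ] (↥(lead ω V) → ℝ) :=
      (LinearMap.funLeft ℝ ℝ (Subtype.val : ↥(lead ω V) → I)).comp V.subtype
    have hf : Function.Injective f := by
      rw [← LinearMap.ker_eq_bot, LinearMap.ker_eq_bot']
      rintro ⟨w, hw⟩ h0
      by_contra hne
      have hne' : w ≠ 0 := fun h => hne (Subtype.ext h)
      obtain ⟨q, hq, hq0, -⟩ := exists_lead_of_ne (ω := ω) hw hne'
      exact hq0 (congrFun h0 ⟨q, hq⟩)
    have := LinearMap.finrank_le_finrank_of_injective hf
    rwa [Module.finrank_fintype_fun_eq_card, Fintype.card_coe] at this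

/-- A basis of `V` with the leading indices. -/
theorem exists_lead_basis {I : Type*} [Fintype I] (ω : I → ℤ) (hω : Function.Injective ω)
    (V : Submodule ℝ (I → ℝ)) :
    ∃ v : I → I → ℝ, (∀ q ∈ lead ω V, v q ∈ V) ∧ (∀ q ∈ lead ω V, v q q = 1) ∧
      (∀ q ∈ lead ω V, ∀ r, ω q < ω r → v q r = 0) ∧
      (∀ w ∈ V, ∃ a : I → ℝ, w = ∑ q ∈ lead ω V, a q • v q) := by
  classical
  obtain ⟨v, hv, h1, h2⟩ := exists_lead_family ω V
  refine ⟨v, hv, h1, h2, ?_⟩
  let Φ : (↥(lead ω V) → ℝ) →ₗ[ℝ] V :=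
    Fintype.linearCombination ℝ (fun q : ↥(lead ω V) => (⟨v q, hv q q.2⟩ : V))
  have hΦ : ∀ a, ((Φ a : V) : I → ℝ) = ∑ q : ↥(lead ω V), a q • v q := by
    intro a
    have h3 : Φ a = ∑ q : ↥(lead ω V), a q • (⟨v q, hv q q.2⟩ : V) :=
      Fintype.linearCombination_apply ..
    rw [h3]
    have h4 := map_sum V.subtype (fun q : ↥(lead ω V) => a q • (⟨v q, hv q q.2⟩ : V)) Finset.univ
    exact h4
  have hinj : Function.Injective Φ := by
    rw [← LinearMap.ker_eq_bot, LinearMap.ker_eq_bot']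
    intro a ha
    apply lead_family_injective hω h1 h2
    rw [← hΦ, ha]
    rfl
  have hsurj : Function.Surjective Φ := by
    rw [← LinearMap.injective_iff_surjective_of_finrank_eq_finrank]
    · exact hinj
    · rw [Module.finrank_fintype_fun_eq_card, Fintype.card_coe, card_lead ω hω V]
  intro w hw
  obtain ⟨a, ha⟩ := hsurj ⟨w, hw⟩
  have h3 := hΦ a
  rw [ha] at h3
  refine ⟨fun q => if h : q ∈ lead ω V then a ⟨q, h⟩ else 0, ?_⟩
  rw [← Finset.sum_coe_sort]
  refine h3.trans (Finset.sum_congr rfl fun q _ => ?_)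
  show a q • v q = (if h : (q : I) ∈ lead ω V then a ⟨q, h⟩ else 0) • v q
  rw [dif_pos q.2]

/-- The leading indices of the part of `V` where the weights are at most `c`. -/
theorem lead_inf {I : Type*} [Fintype I] (ω : I → ℤ) (hω : Function.Injective ω)
    (V : Submodule ℝ (I → ℝ)) (c : ℤ) (W : Submodule ℝ (I → ℝ))
    (hW : ∀ w, w ∈ W ↔ ∀ r, c < ω r → w r = 0) :
    ((lead ω V).filter (fun q => ω q ≤ c)).card = Module.finrank ℝ ↥(V ⊓ W) := by
  rw [← card_lead ω hω (V ⊓ W)]
  congr 1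
  ext q
  rw [Finset.mem_filter, mem_lead, mem_lead]
  constructor
  · rintro ⟨⟨w, hw, h0, hz⟩, hc⟩
    exact ⟨w, ⟨hw, (hW w).mpr fun r hr => hz r (hc.trans_lt hr)⟩, h0, hz⟩
  · rintro ⟨w, ⟨hw, hw2⟩, h0, hz⟩
    refine ⟨⟨w, hw, h0, hz⟩, ?_⟩
    by_contra hc
    exact h0 ((hW w).mp hw2 q (not_le.mp hc))

end Pool.MP_70e04f_ag.Add
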