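import Pool.Agent.Lib_MP_70e04f_add.Cubic
import Pool.Agent.Lib_MP_70e04f_add.Small
import Pool.Agent.Lib_MP_70e04f_hex.Generic

/-!
# Arbitrary large multiplicities in standard position, and small ones
-/

namespace Pool.MP_70e04f_ag.Add

open MvPolynomial Pool.MP_70e04f_ag.Hex

/-- Joining the large points and the others. -/
lemma tri_of_sum {n : ℕ} (N : ℕ) (mm : Fin n → ℕ) (T : Finset (Fin n))
    (h : OK (tri N) (Sum.elim (fun t : ↥T => mm t.1) (fun i : Fin n => if i ∈ T then 0 else mm i))) :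
    OK (tri N) mm := by
  classical
  refine OK.restrict (fun i : Fin n => if h : i ∈ T then Sum.inl (⟨i, h⟩ : ↥T) else Sum.inr i)
    ?_ ?_ ?_ h
  · intro i i' hii
    simp only at hii
    by_cases hi : i ∈ T
    · by_cases hi' : i' ∈ T
      · rw [dif_pos hi, dif_pos hi'] at hii
        have := Sum.inl_injective hii
        exact congrArg Subtype.val this
      · rw [dif_pos hi, dif_neg hi'] at hii
        exact absurd hii (by simp)
    · by_cases hi' : i' ∈ T
      · rw [dif_neg hi, dif_pos hi'] at hii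
        exact absurd hii (by simp)
      · rw [dif_neg hi, dif_neg hi'] at hii
        exact Sum.inr_injective hii
  · intro i
    by_cases hi : i ∈ T
    · simp only [dif_pos hi, Sum.elim_inl]
    · simp only [dif_neg hi, Sum.elim_inr]
      rw [if_neg hi]
  · rintro (t | i) ho
    · exfalso
      apply ho
      exact ⟨t.1, by simp only [dif_pos t.2]⟩
    · by_cases hi : i ∈ T
      · simp [hi]
      · exfalso
        apply ho
        exact ⟨i, by simp only [dif_neg hi]⟩

/-- Arbitrary multiplicities in standard position, and small ones. -/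
theorem tri_many {n : ℕ} (k m s M d : ℕ) (mm : Fin n → ℕ) (T : Finset (Fin n))
    (h7 : 7 * m + s < k ^ 2) (hM : 2 * m ≤ M) (hmm : ∀ i, i ∉ T → mm i ≤ M)
    (hs : (Finset.univ.filter (fun i => i ∉ T ∧ m < mm i)).card ≤ s)
    (hT3 : ∀ U ⊆ T, U.card ≤ 3 → ∑ i ∈ U, mm i + k * (M + 1) ≤ d)
    (hTs : ∑ i ∈ T, mm i + 3 * (k * (M + 1)) ≤ 3 * d) : OK (tri (d + 1)) mm := by
  classical
  apply tri_of_sum (d + 1) mm T
  have hkM : (M + 1) * k = k * (M + 1) := Nat.mul_comm _ _
  have h0 := hT3 ∅ (by simp) (by simp)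
  rw [Finset.sum_empty, Nat.zero_add] at h0
  have hstd : Std (d + 1 - (M + 1) * k) (fun t : ↥T => mm t.1) := by
    constructor
    · intro U hU
      have h1 := hT3 (U.map (Function.Embedding.subtype _)) (by
        intro i hi
        rw [Finset.mem_map] at hi
        obtain ⟨t, _, rfl⟩ := hi
        exact t.2) (by rw [Finset.card_map]; exact hU)
      rw [Finset.sum_map] at h1
      simp only [Function.Embedding.subtype_apply] at h1
      change ∑ t ∈ U, mm t.1 + 1 ≤ _
      omega
    · have h1 : ∑ t : ↥T, mm t.1 = ∑ i ∈ T, mm i := Finset.sum_coe_sort T mm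
      rw [h1]
      omega
  let e : ↥T → ℝ := fun t => ((t.1 : ℕ) : ℝ) + 2
  have he : Function.Injective e := by
    intro a b hab
    have h1 : ((a.1 : ℕ) : ℝ) = ((b.1 : ℕ) : ℝ) := by simpa [e] using hab
    exact Subtype.ext (Fin.ext (Nat.cast_injective h1))
  have he1 : ∀ t, 1 < e t := by
    intro t
    have : (0 : ℝ) ≤ ((t.1 : ℕ) : ℝ) := Nat.cast_nonneg _
    simp only [e]
    linarith
  have he0 : ∀ t, 0 < e t := fun t => by have := he1 t; linarith
  have hj : ∀ j, j ≤ M + 1 → Std (d + 1 - j * k) (fun t : ↥T => mm t.1) := by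
    intro j hj
    apply hstd.mono
    have : j * k ≤ (M + 1) * k := Nat.mul_le_mul_right k hj
    omega
  apply add_small k m s M (d + 1) (fun t : ↥T => mm t.1) (cpt e) _ h7 hM
  · intro i
    split_ifs with h
    · exact Nat.zero_le _
    · exact hmm i h
  · refine le_trans (Finset.card_le_card ?_) hs
    intro i hi
    rw [Finset.mem_filter] at hi ⊢
    have h2 := hi.2
    split_ifs at h2 with h
    · omega
    · exact ⟨hi.1, h, h2⟩
  · intro t h
    have h1 : e t ^ 3 = (e t ^ 2) ^ k := h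
    rw [← pow_mul] at h1
    have := pow_right_injective₀ (he0 t) (he1 t).ne' h1
    omega
  · intro j hj'
    have h1 := (hj j hj').hT_le he he0
    have h2 := hT_ge (d + 1 - j * k) (fun t : ↥T => mm t.1) (cpt e)
    omega
  · have h1 := hstd.chi_pos
    have h2 := hT_ge (d + 1 - (M + 1) * k) (fun t : ↥T => mm t.1) (cpt e)
    omega

/-- Arbitrary multiplicities in standard position, and small ones: general complex points. -/
theorem gen_many (n k m s M d D : ℕ) (mm : Fin n → ℕ) (T : Finset (Fin n))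
    (h7 : 7 * m + s < k ^ 2) (hM : 2 * m ≤ M) (hmm : ∀ i, i ∉ T → mm i ≤ M)
    (hs : (Finset.univ.filter (fun i => i ∉ T ∧ m < mm i)).card ≤ s)
    (hT3 : ∀ U ⊆ T, U.card ≤ 3 → ∑ i ∈ U, mm i + k * (M + 1) ≤ d)
    (hTs : ∑ i ∈ T, mm i + 3 * (k * (M + 1)) ≤ 3 * d)
    (hD : D = d ∨ D ≤ d ∧ (d + 1) * (d + 2) ≤ ∑ i, mm i * (mm i + 1)) : GenExp D mm := by
  have h := genExp_of_OK d mm (tri_many k m s M d mm T h7 hM hmm hs hT3 hTs)
  rcases hD with rfl | ⟨h1, h2⟩
  · exact h
  · exact h.le h1 h2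

end Pool.MP_70e04f_ag.Add
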