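import Pool.Agent.Lib_MP_70e04f_add.Step

/-!
# The set of leading exponents and its rows (piece ROWS)

PAPER PROOF of `card_step`. Let `A` be the set of `δ` with `(δ, j + 1) ∈ Q` and
`S = {a + k b | (a, b) ∈ tri k}`; the map `(a, b) ↦ a + k b` is injective on `tri k` (`a < k`), so
`card S = card (tri k)`. By hypothesis `A + S` is contained in the set of `δ` with `(δ, j) ∈ Q`,
and `card (A + S) ≥ card A + card S - 1` (Cauchy-Davenport for ordered groups or monoids, in Mathlib
`cauchy_davenport_add_of_linearOrder_isCancelAdd` or similar; or by hand: `min A + S` and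
`A + max S` share one element).

PAPER PROOF of `exists_rows`. `N0 = (k + 1) * N`, `Q = leadQ N0 (box k N) (Vt k N m q)`.
For `r ∈ box k N` one has `r.1 < N0`, so `r.2 < j ↔ c < wt N0 r` with
`c = N0 - 1 - N0 * j`, and `low (box k N) j` is the space `W` of `lead_inf`; with
`finrank_Vt_low` this gives `#{q ∈ Q | j ≤ q.2} = hT (N - j * k)` for all `j`, hence the first two
claims (`j = 0`: `low _ 0 = ⊤`). The third claim is `leadQ_step` and `card_step`. For the last one
let `p0` be the points of `init_degen` and `p i = ![p0 i 0, p0 i 1 + p0 i 0 ^ k]`; by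
`psi_mem_iff`, `toPS_mem_iff` and `mem_Vt` the map `F ↦` (coefficient vector of `psi k F`) embeds
`Lsys N m q ⊓ vanish mm p` into `Vt k N m q ⊓ ker (condP (box k N) mm p0)`.
-/

namespace Pool.MP_70e04f_ag.Add

open MvPolynomial Pool.MP_70e04f_ag.Hex

open Pointwise in
/-- The sumset bound: multiplying a row by the monomials of degree `< k`. -/
lemma card_step {k : ℕ} (hk : 1 ≤ k) (Q : Finset (ℕ × ℕ)) (j : ℕ)
    (h : ∀ δ a b, (δ, j + 1) ∈ Q → a + b ≤ k → (δ + a + k * b, j) ∈ Q)
    (h1 : 1 ≤ rowc Q (j + 1)) : rowc Q (j + 1) + (tri k).card ≤ rowc Q j + 1 := by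
  classical
  set A : Finset ℕ := (Q.filter (fun q => q.2 = j + 1)).image Prod.fst with hA
  set S : Finset ℕ := (tri k).image (fun q => q.1 + k * q.2) with hS
  have hAc : A.card = rowc Q (j + 1) := by
    rw [hA, Finset.card_image_of_injOn]
    · rfl
    · intro x hx y hy hxy
      rw [Finset.mem_coe, Finset.mem_filter] at hx hy
      exact Prod.ext hxy (hx.2.trans hy.2.symm)
  have hSc : S.card = (tri k).card := by
    rw [hS, Finset.card_image_of_injOn]
    intro x hx y hy hxy
    rw [Finset.mem_coe, mem_tri] at hx hy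
    have hxy' : x.1 + k * x.2 = y.1 + k * y.2 := hxy
    have e1 : x.1 = y.1 := by
      have g1 : (x.1 + k * x.2) % k = x.1 := by
        rw [Nat.add_mul_mod_self_left, Nat.mod_eq_of_lt (by omega)]
      have g2 : (y.1 + k * y.2) % k = y.1 := by
        rw [Nat.add_mul_mod_self_left, Nat.mod_eq_of_lt (by omega)]
      rw [← g1, ← g2, hxy']
    have e2 : x.2 = y.2 := by
      rw [e1] at hxy'
      exact Nat.eq_of_mul_eq_mul_left (by omega) (Nat.add_left_cancel hxy')
    exact Prod.ext e1 e2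
  have hAne : A.Nonempty := by
    rw [← Finset.card_pos, hAc]
    omega
  have hSne : S.Nonempty := by
    rw [← Finset.card_pos, hSc, Finset.card_pos]
    exact ⟨(0, 0), mem_tri.2 (by change 0 + 0 < k; omega)⟩
  have h2 := cauchy_davenport_add_of_linearOrder_isCancelAdd hAne hSne
  have h3 : (A + S).card ≤ rowc Q j := by
    have h4 : A + S ⊆ (Q.filter (fun q => q.2 = j)).image Prod.fst := by
      intro x hx
      obtain ⟨δ, hδ, c, hc, rfl⟩ := Finset.mem_add.1 hx
      obtain ⟨q, hq, rfl⟩ := Finset.mem_image.1 hδ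
      obtain ⟨r, hr, rfl⟩ := Finset.mem_image.1 hc
      rw [Finset.mem_filter] at hq
      rw [mem_tri] at hr
      have hq' : (q.1, j + 1) ∈ Q := by
        rw [← hq.2]
        exact hq.1
      have h5 := h q.1 r.1 r.2 hq' (by omega)
      refine Finset.mem_image.2 ⟨(q.1 + r.1 + k * r.2, j), ?_, ?_⟩
      · rw [Finset.mem_filter]
        exact ⟨h5, rfl⟩
      · change q.1 + r.1 + k * r.2 = q.1 + (r.1 + k * r.2)
        ring
    exact (Finset.card_le_card h4).trans Finset.card_image_le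
  rw [hAc, hSc] at h2
  omega

namespace RowsAux

/-- The weight separates the rows. -/
lemma wt_lt {N0 j : ℕ} {r : ℕ × ℕ} (h : r.1 < N0) :
    ((N0 : ℤ) - 1 - (N0 : ℤ) * (j : ℤ) < wt N0 r) ↔ r.2 < j := by
  unfold wt
  have h0 : (r.1 : ℤ) < N0 := by exact_mod_cast h
  have h1 : (0 : ℤ) ≤ r.1 := Int.natCast_nonneg _
  constructor
  · intro h2
    by_contra hcon
    have h3 : (j : ℤ) ≤ r.2 := by exact_mod_cast not_lt.1 hcon
    have h4 : (N0 : ℤ) * j ≤ (N0 : ℤ) * r.2 := mul_le_mul_of_nonneg_left h3 (by positivity)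
    linarith
  · intro h2
    have h3 : (r.2 : ℤ) + 1 ≤ j := by exact_mod_cast h2
    have h4 : (N0 : ℤ) * (r.2 + 1) ≤ (N0 : ℤ) * j := mul_le_mul_of_nonneg_left h3 (by positivity)
    linarith

/-- The number of leading exponents in the rows `≥ j`. -/
lemma count_ge {τ : Type*} {k N : ℕ} (hk : 1 ≤ k) {m : τ → ℕ}
    {q : τ → Fin 2 → ℝ} (hq : ∀ t, q t 1 ≠ q t 0 ^ k) (j : ℕ) :
    ((leadQ ((k + 1) * N) (box k N) (Vt k N m q)).filter (fun r => j ≤ r.2)).card =
      hT (N - j * k) m q := by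
  classical
  have hS : ∀ r ∈ box k N, r.1 < (k + 1) * N := fun r hr => (mem_box.1 hr).1
  have h1 := lead_inf (fun r : ↥(box k N) => wt ((k + 1) * N) r.1) (wt_injective hS) (Vt k N m q)
    ((((k + 1) * N : ℕ) : ℤ) - 1 - (((k + 1) * N : ℕ) : ℤ) * (j : ℤ)) (low (box k N) j) (by
      intro w
      rw [mem_low]
      constructor
      · intro h r hr
        exact h r ((wt_lt (hS r.1 r.2)).1 hr)
      · intro h r hr
        exact h r ((wt_lt (hS r.1 r.2)).2 hr))
  rw [finrank_Vt_low hk hq j] at h1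
  rw [← h1]
  unfold leadQ
  rw [Finset.filter_map, Finset.card_map]
  congr 1
  apply Finset.filter_congr
  intro r _
  have h2 := wt_lt (j := j) (hS r.1 r.2)
  change j ≤ r.1.2 ↔ wt ((k + 1) * N) r.1 ≤ _
  rw [← not_lt, ← h2, not_lt]

end RowsAux

open RowsAux

/-- The rows of the leading exponents. -/
theorem exists_rows {τ : Type*} [Fintype τ] {k N : ℕ} (hk : 1 ≤ k) {m : τ → ℕ}
    {q : τ → Fin 2 → ℝ} (hq : ∀ t, q t 1 ≠ q t 0 ^ k) :
    ∃ Q : Finset (ℕ × ℕ), Q.card = hT N m q ∧
      (∀ j, rowc Q j + hT (N - (j + 1) * k) m q = hT (N - j * k) m q) ∧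
      (∀ j, 1 ≤ rowc Q (j + 1) → rowc Q (j + 1) + (tri k).card ≤ rowc Q j + 1) ∧
      (∀ (n : ℕ) (mm : Fin n → ℕ), OK Q mm → ∃ p : Fin n → Fin 2 → ℝ,
        Module.finrank ℝ ↥(Lsys N m q ⊓ vanish mm p) ≤
          hT N m q - Fintype.card (Σ i : Fin n, ↥(tri (mm i)))) := by
  classical
  have hS : ∀ r ∈ box k N, r.1 < (k + 1) * N := fun r hr => (mem_box.1 hr).1
  set Q := leadQ ((k + 1) * N) (box k N) (Vt k N m q) with hQ
  have hcard : Q.card = hT N m q := by
    have := count_ge hk hq (N := N) (m := m) 0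
    rw [Finset.filter_true_of_mem (fun r _ => Nat.zero_le _), Nat.zero_mul, Nat.sub_zero] at this
    exact this
  refine ⟨Q, hcard, ?_, ?_, ?_⟩
  · intro j
    have h1 := count_ge hk hq (N := N) (m := m) j
    have h2 := count_ge hk hq (N := N) (m := m) (j + 1)
    rw [← h1, ← h2, ← hQ]
    unfold rowc
    rw [← Finset.card_union_of_disjoint]
    · congr 1
      ext r
      rw [Finset.mem_union, Finset.mem_filter, Finset.mem_filter, Finset.mem_filter]
      constructor
      · rintro (⟨h3, h4⟩ | ⟨h3, h4⟩)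
        · exact ⟨h3, h4.ge⟩
        · exact ⟨h3, by omega⟩
      · rintro ⟨h3, h4⟩
        rcases h4.eq_or_lt with h5 | h5
        · exact Or.inl ⟨h3, h5.symm⟩
        · exact Or.inr ⟨h3, h5⟩
    · rw [Finset.disjoint_left]
      intro r h3 h4
      rw [Finset.mem_filter] at h3 h4
      omega
  · intro j h1
    exact card_step hk Q j (fun δ a b h2 h3 => leadQ_step hk le_rfl hq h2 h3) h1
  · intro n mm hOK
    obtain ⟨p0, hp0⟩ := init_degen hS (Vt k N m q) hOK
    refine ⟨fun i => ![p0 i 0, p0 i 1 + p0 i 0 ^ k], ?_⟩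
    rw [← hQ, hcard] at hp0
    refine le_trans ?_ hp0
    set U := Lsys N m q ⊓ vanish mm (fun i => ![p0 i 0, p0 i 1 + p0 i 0 ^ k]) with hU
    set Z := Vt k N m q ⊓ LinearMap.ker (condP (box k N) mm p0).mulVecLin with hZ
    have hle : U.map (psi k).toLinearMap ≤ Z.map (toPS (box k N)) := by
      intro F' hF'
      obtain ⟨F, hF, rfl⟩ := Submodule.mem_map.1 hF'
      obtain ⟨hF1, hF2⟩ := Submodule.mem_inf.1 hF
      have hF3 := (Submodule.mem_inf.1 hF1).1
      obtain ⟨v, hv⟩ := psi_mem_range k N F hF3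
      refine Submodule.mem_map.2 ⟨v, ?_, hv⟩
      refine Submodule.mem_inf.2 ⟨?_, ?_⟩
      · exact mem_Vt.2 ⟨F, hF1, hv.symm⟩
      · rw [LinearMap.mem_ker, Matrix.mulVecLin_apply, ← toPS_mem_iff, mem_vanish]
        intro i
        rw [hv]
        have h1 := (mem_vanish.1 hF2) i
        have h2 := (psi_mem_iff k (mm i) (p0 i 0) (p0 i 1) F).2 h1
        have h3 : p0 i = ![p0 i 0, p0 i 1] := by
          ext t
          fin_cases t <;> rfl
        rw [h3]
        exact h2
    have e1 : Module.finrank ℝ ↥(U.map (psi k).toLinearMap) = Module.finrank ℝ ↥U :=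
      (LinearEquiv.finrank_eq (Submodule.equivMapOfInjective (psi k).toLinearMap
        (psi_injective k) U)).symm
    calc Module.finrank ℝ ↥U = Module.finrank ℝ ↥(U.map (psi k).toLinearMap) := e1.symm
      _ ≤ Module.finrank ℝ ↥(Z.map (toPS (box k N))) := Submodule.finrank_mono hle
      _ ≤ Module.finrank ℝ ↥Z := Submodule.finrank_map_le _ _

end Pool.MP_70e04f_ag.Add
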