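import Pool.Agent.Lib_MP_70e04f_add.Filt

/-!
# Multiplying the leading exponents (piece STEP)

The paper proof is in the header of `Filt.lean`.
-/

namespace Pool.MP_70e04f_ag.Add

open MvPolynomial Pool.MP_70e04f_ag.Hex

/-- Coefficients of a multiple of a power of the second variable. -/
lemma coeff_X1_pow_mul (c j i : ℕ) (K : MvPolynomial (Fin 2) ℝ) :
    coeff (mon c (j + i)) ((X 1 : MvPolynomial (Fin 2) ℝ) ^ j * K) = coeff (mon c i) K := by
  have h1 : mon c (j + i) = Finsupp.single 1 j + mon c i := by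
    ext x
    fin_cases x <;> simp [mon]
  rw [h1, X_pow_eq_monomial, coeff_monomial_mul, one_mul]

/-- The coefficients of the restriction to the line `X 1 = 0`. -/
lemma coeff_mon_zero (c : ℕ) (K : MvPolynomial (Fin 2) ℝ) :
    coeff (mon c 0) K = (aeval ![(Polynomial.X : Polynomial ℝ), 0] K).coeff c := by
  induction K using MvPolynomial.induction_on' with
  | monomial s r =>
    rw [coeff_monomial, aeval_monomial, Finsupp.prod_fintype _ _ (fun i => pow_zero _),
      Fin.prod_univ_two]
    simp only [Matrix.cons_val_zero, Matrix.cons_val_one]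
    by_cases h1 : s 1 = 0
    · rw [h1, pow_zero, mul_one]
      simp only [Polynomial.algebraMap_eq, Polynomial.coeff_C_mul, Polynomial.coeff_X_pow]
      by_cases h0 : s 0 = c
      · rw [if_pos, if_pos h0.symm, mul_one]
        rw [← mon_eta s, h0, h1]
      · rw [if_neg, if_neg (fun h => h0 h.symm), mul_zero]
        intro h
        apply h0
        rw [h, mon_zero']
    · rw [zero_pow h1, mul_zero, mul_zero, Polynomial.coeff_zero, if_neg]
      intro h
      apply h1
      rw [h, mon_one']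
  | add p q hp hq =>
    rw [coeff_add, map_add, Polynomial.coeff_add, hp, hq]

/-- The lowest coefficients after the multiplication. -/
lemma coeff_step (k a b c : ℕ) (G' : MvPolynomial (Fin 2) ℝ) :
    coeff (mon c 0) (X 0 ^ a * (X 1 + X 0 ^ k) ^ b * G') =
      if a + k * b ≤ c then coeff (mon (c - (a + k * b)) 0) G' else 0 := by
  rw [coeff_mon_zero, map_mul, map_mul, map_pow, map_pow, map_add, map_pow, aeval_X, aeval_X]
  simp only [Matrix.cons_val_zero, Matrix.cons_val_one, zero_add]
  rw [← pow_mul, ← pow_add, Polynomial.coeff_X_pow_mul', coeff_mon_zero]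

/-- Multiplying by a polynomial of degree `≤ k`. -/
theorem leadQ_step {τ : Type*} {k N N0 : ℕ} (hk : 1 ≤ k) (hN0 : (k + 1) * N ≤ N0) {m : τ → ℕ}
    {q : τ → Fin 2 → ℝ} (hq : ∀ t, q t 1 ≠ q t 0 ^ k) {j δ a b : ℕ}
    (h : (δ, j + 1) ∈ leadQ N0 (box k N) (Vt k N m q)) (hab : a + b ≤ k) :
    (δ + a + k * b, j) ∈ leadQ N0 (box k N) (Vt k N m q) := by
  rw [mem_leadQ] at h
  obtain ⟨hbox, hlead⟩ := h
  rw [mem_lead] at hlead
  obtain ⟨w, hw, hw0, hwz⟩ := hlead
  obtain ⟨F, hF, hFw⟩ := mem_Vt.1 hw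
  have hδ : δ < N0 := lt_of_lt_of_le (mem_box.1 hbox).1 hN0
  -- the coefficients of `psi k F`
  have hrange : psi k F ∈ LinearMap.range (toPS (box k N)) := ⟨w, hFw.symm⟩
  have hcoef : ∀ c i : ℕ, (i < j + 1 ∨ (i = j + 1 ∧ δ < c)) → coeff (mon c i) (psi k F) = 0 := by
    intro c i hci
    by_contra hne
    have hmem := mem_range_toPS.1 hrange (mon c i) hne
    rw [mon_zero', mon_one'] at hmem
    apply hne
    rw [hFw]
    have h1 := coeff_toPS w (⟨(c, i), hmem⟩ : ↥(box k N))
    rw [h1]
    apply hwz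
    show wt N0 (δ, j + 1) < wt N0 (c, i)
    unfold wt
    push_cast
    rcases hci with hi | ⟨rfl, hc⟩
    · have hi' : (i : ℤ) ≤ j := by omega
      have h2 : (N0 : ℤ) * i ≤ N0 * j := mul_le_mul_of_nonneg_left hi' (by positivity)
      have h3 : (δ : ℤ) < N0 := by exact_mod_cast hδ
      have h4 : (0 : ℤ) ≤ c := by positivity
      have h5 : (N0 : ℤ) * (j + 1) = N0 * j + N0 := by ring
      linarith
    · have h3 : (δ : ℤ) < c := by exact_mod_cast hc
      push_cast
      linarith
  have hdvd : (X 1 : MvPolynomial (Fin 2) ℝ) ^ (j + 1) ∣ psi k F := by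
    rw [X1_pow_dvd_iff]
    intro s hs
    have := hcoef (s 0) (s 1) (Or.inl hs)
    rwa [mon_eta] at this
  obtain ⟨G', hG'⟩ := hdvd
  obtain ⟨G, hG⟩ := psi_surjective k G'
  have hFG : F = fk k ^ (j + 1) * G := by
    apply psi_injective k
    rw [map_mul, map_pow, psi_fk, hG, hG']
  -- the coefficients of `G'`
  have hG'c : ∀ c, coeff (mon c 0) G' = coeff (mon c (j + 1)) (psi k F) := by
    intro c
    have := coeff_X1_pow_mul c (j + 1) 0 G'
    rw [add_zero] at this
    rw [hG', this]
  have hG'δ : coeff (mon δ 0) G' ≠ 0 := by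
    rw [hG'c, hFw]
    have h1 := coeff_toPS w (⟨(δ, j + 1), hbox⟩ : ↥(box k N))
    rw [h1]
    exact hw0
  have hG0 : G ≠ 0 := by
    intro h0
    apply hG'δ
    rw [← hG, h0, map_zero, coeff_zero]
  have hGL : G ∈ Lsys (N - (j + 1) * k) m q := by
    apply mem_of_fk_mul_mem hk hq
    rwa [← hFG]
  have hjN : (j + 1) * k < N := by
    by_contra hcon
    push Not at hcon
    apply hG0
    apply eq_zero_of_fk_mul_mem hk (j := j + 1) hcon (m := m) (q := q)
    rwa [← hFG]
  -- the new polynomial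
  have hdeg : (X 0 ^ a * X 1 ^ b : MvPolynomial (Fin 2) ℝ).totalDegree ≤ k := by
    refine le_trans (totalDegree_mul _ _) ?_
    rw [totalDegree_X_pow, totalDegree_X_pow]
    exact hab
  have hjk : j * k ≤ N := by nlinarith
  have hF2 : fk k ^ j * (X 0 ^ a * X 1 ^ b * G) ∈ Lsys N m q := by
    apply fk_mul_mem hk hjk
    have h1 := mul_mem_Lsys hdeg hGL
    have h2 : N - (j + 1) * k + k = N - j * k := by
      have : (j + 1) * k = j * k + k := by ring
      omega
    rwa [h2] at h1
  have hpsi : psi k (fk k ^ j * (X 0 ^ a * X 1 ^ b * G)) =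
      X 1 ^ j * (X 0 ^ a * (X 1 + X 0 ^ k) ^ b * G') := by
    rw [map_mul, map_pow, psi_fk, map_mul, map_mul, map_pow, map_pow, hG]
    congr 3
    · congr 1
      simp [psi]
    · congr 1
      simp [psi]
  have hr2 : psi k (fk k ^ j * (X 0 ^ a * X 1 ^ b * G)) ∈ LinearMap.range (toPS (box k N)) := by
    apply psi_mem_range
    have := hF2
    unfold Lsys at this
    exact this.1
  obtain ⟨w2, hw2⟩ := hr2
  have hc2 : ∀ c, coeff (mon c j) (toPS (box k N) w2) =
      if a + k * b ≤ c then coeff (mon (c - (a + k * b)) 0) G' else 0 := by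
    intro c
    have := coeff_X1_pow_mul c j 0 (X 0 ^ a * (X 1 + X 0 ^ k) ^ b * G')
    rw [add_zero] at this
    rw [hw2, hpsi, this, coeff_step]
  have hne2 : coeff (mon (δ + a + k * b) j) (toPS (box k N) w2) ≠ 0 := by
    rw [hc2, if_pos (by omega)]
    have : δ + a + k * b - (a + k * b) = δ := by omega
    rw [this]
    exact hG'δ
  have hbox2 : (δ + a + k * b, j) ∈ box k N := by
    have := mem_range_toPS.1 (⟨w2, rfl⟩ : toPS (box k N) w2 ∈ LinearMap.range (toPS (box k N)))
      _ hne2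
    rwa [mon_zero', mon_one'] at this
  rw [mem_leadQ]
  refine ⟨hbox2, ?_⟩
  rw [mem_lead]
  refine ⟨w2, mem_Vt.2 ⟨_, hF2, hw2.symm⟩, ?_, ?_⟩
  · rw [← coeff_toPS w2 ⟨(δ + a + k * b, j), hbox2⟩]
    exact hne2
  · rintro ⟨⟨c, i⟩, hr⟩ hlt
    rw [← coeff_toPS w2 ⟨(c, i), hr⟩]
    have hlt' : wt N0 (δ + a + k * b, j) < wt N0 (c, i) := hlt
    unfold wt at hlt'
    simp only at hlt'
    show coeff (mon c i) (toPS (box k N) w2) = 0
    have hcN : c < N0 := lt_of_lt_of_le (mem_box.1 hr).1 hN0
    rcases lt_trichotomy i j with hij | rfl | hij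
    · have hd : (X 1 : MvPolynomial (Fin 2) ℝ) ^ j ∣ toPS (box k N) w2 := by
        rw [hw2, hpsi]
        exact dvd_mul_right _ _
      rw [X1_pow_dvd_iff] at hd
      apply hd
      rw [mon_one']
      exact hij
    · rw [hc2]
      split_ifs with hle
      · rw [hG'c]
        apply hcoef
        right
        refine ⟨rfl, ?_⟩
        push_cast at hlt'
        have : (δ + a + k * b : ℤ) < c := by linarith
        have h2 : δ + a + k * b < c := by exact_mod_cast this
        omega
      · rfl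
    · exfalso
      have h1 : ((j : ℤ) + 1) ≤ i := by omega
      have h2 : (N0 : ℤ) * (j + 1) ≤ N0 * i := mul_le_mul_of_nonneg_left h1 (by positivity)
      have h3 : (c : ℤ) < N0 := by exact_mod_cast hcN
      have h4 : (0 : ℤ) ≤ ((δ + a + k * b : ℕ) : ℤ) := by positivity
      have h5 : (N0 : ℤ) * (j + 1) = N0 * j + N0 := by ring
      linarith

end Pool.MP_70e04f_ag.Add
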